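import Pool.Agent.Helper948.Conj.Pot

set_option autoImplicit false

/-! Block automata and the sets of words they define. -/

namespace Pool.Agent.Helper948.Conj

/-- block automaton: `K` block types, `S` states; a transition `(g, l, q')` of weight `g - l` -/
structure Blk (K S : Type) where
  G : ℕ
  all : List K
  hall : ∀ X, X ∈ all
  idx : S → ℕ
  hidx : ∀ q q', idx q = idx q' → q = q'
  nS : ℕ
  hnS : ∀ q, idx q < nS
  rho : K → K → Prop
  del : K → S → List (ℕ × ℕ × S)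
  hG : ∀ X q g l q', (g, l, q') ∈ del X q → g ≤ G ∧ l ≤ G
  ex : K → S → Prop
  m1 : S
  hm1 : ∀ X, (0, 0, m1) ∈ del X m1
  ini : K

/-- a piece of text -/
def wt {α C : Type} (lt : C → ℕ → α) (L : ℕ) (s : ℕ → C) (P n : ℕ) : List α :=
  (List.range' P n).map fun x => lt (s (x / L)) (x % L)

theorem seg_cons' {α C : Type} (lt : C → ℕ → α) (c : C) (i j : ℕ) (h : i < j) :
    seg lt c i j = lt c i :: seg lt c (i + 1) j := by
  unfold seg
  rw [show j - i = (j - (i + 1)) + 1 by omega, List.range'_succ]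
  rfl

namespace Blk

variable {K S : Type} (M : Blk K S)

/-- number of cells of a block -/
def W : ℕ := M.G + 2

/-- number of letters of a cell -/
def L : ℕ := M.nS * (M.G + 1) + 2

/-- the offset of a state -/
def tq (q : S) : ℕ := 1 + M.idx q * (M.G + 1)

theorem tq_pos (q : S) : 1 ≤ M.tq q := by unfold tq; omega

theorem tq_lt (q : S) (g : ℕ) (hg : g ≤ M.G) : M.tq q + g + 1 < M.L := by
  unfold tq L
  have h1 := M.hnS q
  have h2 : (M.idx q + 1) * (M.G + 1) ≤ M.nS * (M.G + 1) := Nat.mul_le_mul_right _ h1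
  rw [Nat.add_mul, one_mul] at h2
  omega

theorem tq_inj (q q' : S) (g g' : ℕ) (hg : g ≤ M.G) (hg' : g' ≤ M.G)
    (h : M.tq q + g = M.tq q' + g') : q = q' ∧ g = g' := by
  unfold tq at h
  have h1 : M.idx q * (M.G + 1) + g = M.idx q' * (M.G + 1) + g' := by omega
  have h2 : M.idx q = M.idx q' := by
    have e1 : (M.idx q * (M.G + 1) + g) / (M.G + 1) = M.idx q := by
      rw [mul_comm, Nat.mul_add_div (by omega), Nat.div_eq_of_lt (by omega), add_zero]
    have e2 : (M.idx q' * (M.G + 1) + g') / (M.G + 1) = M.idx q' := by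
      rw [mul_comm, Nat.mul_add_div (by omega), Nat.div_eq_of_lt (by omega), add_zero]
    rw [← e1, h1, e2]
  refine ⟨M.hidx _ _ h2, ?_⟩
  rw [h2] at h1
  omega

/-- the cells -/
def cells : List (K × ℕ) := M.all.flatMap fun X => (List.range M.W).map fun i => (X, i)

theorem mem_cells (c : K × ℕ) : c ∈ M.cells ↔ c.2 < M.W := by
  unfold cells
  simp only [List.mem_flatMap, List.mem_map, List.mem_range]
  constructor
  · rintro ⟨X, _, i, hi, rfl⟩
    exact hi
  · intro h
    exact ⟨c.1, M.hall _, c.2, h, rfl⟩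

/-- legality of cells -/
def R (c d : K × ℕ) : Prop :=
  d.2 < M.W ∧ ((c.1 = d.1 ∧ d.2 = c.2 + 1) ∨ (c.2 + 1 = M.W ∧ d.2 = 0 ∧ M.rho c.1 d.1))

variable {α : Type} (lt : K × ℕ → ℕ → α)

/-- the base tokens -/
inductive Base : List α → Prop
  | cruise (X : K) (x : ℕ) (d : K × ℕ) (q : S) : 1 ≤ x → x < M.W → d ∈ M.cells →
      Base (seg lt (X, x) (M.tq q) M.L ++ seg lt d 0 (M.tq q))
  | inside (X : K) (q : S) (g l : ℕ) (q' : S) (g' : ℕ) : (g, l, q') ∈ M.del X q → g' < g →
      Base [lt (X, 0) (M.tq q + g')]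
  | jump (X : K) (q : S) (g l : ℕ) (q' : S) : (g, l, q') ∈ M.del X q →
      Base (wt lt M.L (fun x => (X, x)) (M.tq q + g)
        ((l + 1) * M.L + M.tq q' - (M.tq q + g)))
  | exit (X : K) (q : S) : M.ex X q →
      Base (wt lt M.L (fun x => (X, x)) (M.tq q) (2 * M.L - M.tq q))

theorem wt_seg (L : ℕ) (s : ℕ → K × ℕ) (i t t' : ℕ) (h' : t' ≤ L) :
    wt lt L s (i * L + t) (t' - t) = seg lt (s i) t t' := by
  unfold wt seg
  apply List.ext_getElem
  · simp
  · intro n h1 h2
    simp only [List.length_map, List.length_range'] at h1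
    simp only [List.getElem_map, List.getElem_range', one_mul]
    have h3 : t + n < L := by omega
    have hL : 0 < L := by omega
    have e1 : (i * L + t + n) / L = i := by
      rw [show i * L + t + n = t + n + L * i by ring, Nat.add_mul_div_left _ _ hL,
        Nat.div_eq_of_lt h3, zero_add]
    have e2 : (i * L + t + n) % L = t + n := by
      rw [show i * L + t + n = t + n + L * i by ring, Nat.add_mul_mod_self_left,
        Nat.mod_eq_of_lt h3]
    rw [e1, e2]

theorem wt_add (L : ℕ) (s : ℕ → K × ℕ) (P a b : ℕ) :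
    wt lt L s P (a + b) = wt lt L s P a ++ wt lt L s (P + a) b := by
  unfold wt
  rw [← List.map_append, List.range'_append_1]

theorem wt_two (L : ℕ) (s : ℕ → K × ℕ) (i t t' : ℕ) (h : t ≤ L) (h' : t' ≤ L) :
    wt lt L s (i * L + t) (L + t' - t) = seg lt (s i) t L ++ seg lt (s (i + 1)) 0 t' := by
  have e : L + t' - t = (L - t) + t' := by omega
  rw [e, wt_add, wt_seg _ _ _ _ _ _ le_rfl]
  congr 1
  have := wt_seg lt L s (i + 1) 0 t' h'
  rw [← this]
  congr 1
  rw [add_mul]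
  omega

theorem wt_cons (L : ℕ) (s : ℕ → K × ℕ) (t n : ℕ) (ht : t < L) (hn : 0 < n) :
    ∃ l, wt lt L s t n = lt (s 0) t :: l := by
  obtain ⟨m, rfl⟩ : ∃ m, n = m + 1 := ⟨n - 1, by omega⟩
  unfold wt
  rw [List.range'_succ, List.map_cons, Nat.div_eq_of_lt ht, Nat.mod_eq_of_lt ht]
  exact ⟨_, rfl⟩

theorem wt_length (L : ℕ) (s : ℕ → K × ℕ) (t n : ℕ) : (wt lt L s t n).length = n := by
  simp [wt]

variable (eta : α) (inj : ∀ c i d j, lt c i = lt d j → c = d ∧ i = j)
  (ne : ∀ c i, lt c i ≠ eta)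

/-- the frame of a block automaton -/
def frm : Frm α (K × ℕ) where
  lt := lt
  eta := eta
  inj := inj
  ne := ne
  L := M.L
  o := M.tq M.m1
  ho := M.tq_pos _
  hoL := M.tq_lt _ 0 (Nat.zero_le _)
  cells := M.cells
  star := (M.ini, 0)
  hstar := (M.mem_cells _).2 (by unfold W; omega)
  R := M.R
  hR c d h := (M.mem_cells _).2 h.1
  base := M.Base lt
  hb := by
    intro y hy
    cases hy with
    | cruise X x d q h1 h2 h3 =>
      have h4 := M.tq_lt q 0 (Nat.zero_le _)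
      refine ⟨(X, x), M.tq q, seg lt (X, x) (M.tq q + 1) M.L ++ seg lt d 0 (M.tq q),
        M.tq_pos q, h4, ?_⟩
      rw [seg_cons' lt _ _ _ (show M.tq q < M.L by omega)]
      rfl
    | inside X q g l q' g' h1 h2 =>
      have h3 := (M.hG _ _ _ _ _ h1).1
      exact ⟨(X, 0), M.tq q + g', _, by have := M.tq_pos q; omega, M.tq_lt q g' (by omega), rfl⟩
    | jump X q g l q' h1 =>
      have h3 := (M.hG _ _ _ _ _ h1).1
      have h4 := M.tq_lt q g h3
      obtain ⟨r, hr⟩ := wt_cons lt M.L (fun x => (X, x)) (M.tq q + g)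
        ((l + 1) * M.L + M.tq q' - (M.tq q + g)) (by omega) (by
          rw [add_mul]; omega)
      exact ⟨(X, 0), M.tq q + g, r, by have := M.tq_pos q; omega, h4, hr⟩
    | exit X q h1 =>
      have h4 := M.tq_lt q 0 (Nat.zero_le _)
      obtain ⟨r, hr⟩ := wt_cons lt M.L (fun x => (X, x)) (M.tq q)
        (2 * M.L - M.tq q) (by omega) (by omega)
      exact ⟨(X, 0), M.tq q, r, M.tq_pos q, h4, hr⟩
  hm := by
    rintro ⟨X, x⟩ ⟨Y, y⟩ hc ⟨hd, h⟩
    have h4 := M.tq_lt M.m1 0 (Nat.zero_le _)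
    have hx := (M.mem_cells _).1 hc
    simp only at hx h hd
    by_cases hx0 : x = 0
    · subst hx0
      rcases h with ⟨rfl, rfl⟩ | ⟨h, _⟩
      · have := Base.jump (M := M) (lt := lt) X M.m1 0 0 M.m1 (M.hm1 X)
        have e := wt_two lt M.L (fun x => (X, x)) 0 (M.tq M.m1) (M.tq M.m1) (by omega) (by omega)
        rw [zero_mul, zero_add] at e
        rw [add_zero, zero_add, one_mul, e] at this
        exact this
      · unfold W at h
        omega
    · exact Base.cruise X x (Y, y) M.m1 (by omega) hx ((M.mem_cells _).2 hd)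

/-- the sequence of cells of a sequence of blocks -/
def cellseq (Xs : ℕ → K) (n : ℕ) : K × ℕ := (Xs (n / M.W), n % M.W)

theorem Wpos : 0 < M.W := by unfold W; omega

theorem cellseq_eq (Xs : ℕ → K) (b x : ℕ) (hx : x < M.W) :
    M.cellseq Xs (b * M.W + x) = (Xs b, x) := by
  unfold cellseq
  rw [show b * M.W + x = x + M.W * b by ring, Nat.add_mul_div_left _ _ M.Wpos,
    Nat.div_eq_of_lt hx, zero_add, Nat.add_mul_mod_self_left, Nat.mod_eq_of_lt hx]

theorem cellseq_legal (Xs : ℕ → K) (h : ∀ b, M.rho (Xs b) (Xs (b + 1))) (n : ℕ) :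
    M.R (M.cellseq Xs n) (M.cellseq Xs (n + 1)) := by
  have hn : n = n / M.W * M.W + n % M.W := by
    have := Nat.div_add_mod n M.W
    rw [mul_comm] at this
    exact this.symm
  have hx := Nat.mod_lt n M.Wpos
  generalize n / M.W = b at hn
  generalize n % M.W = x at hn hx
  subst hn
  rw [M.cellseq_eq Xs b x hx]
  by_cases hx1 : x + 1 < M.W
  · rw [show b * M.W + x + 1 = b * M.W + (x + 1) by ring, M.cellseq_eq Xs b _ hx1]
    exact ⟨hx1, Or.inl ⟨rfl, rfl⟩⟩
  · have hx2 : x + 1 = M.W := by omega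
    have e : b * M.W + x + 1 = (b + 1) * M.W + 0 := by
      rw [add_mul, one_mul]; omega
    rw [e, M.cellseq_eq Xs _ _ M.Wpos]
    exact ⟨M.Wpos, Or.inr ⟨hx2, rfl, h b⟩⟩

/-- a potential on blocks certifies that the sequence is bad -/
theorem bad (Xs : ℕ → K) (hX0 : Xs 0 = M.ini) (hrho : ∀ b, M.rho (Xs b) (Xs (b + 1)))
    (V : ℕ → S → ℤ)
    (hV : ∀ b q g l q', (g, l, q') ∈ M.del (Xs b) q → (g : ℤ) - l + V (b + 1) q' ≤ V b q)
    (hE : ∀ b q, M.ex (Xs b) q → 0 ≤ V b q) (h1 : V 0 M.m1 ≤ -1) (m : ℕ) :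
    ¬ (M.frm lt eta inj ne).Good ((List.range m).map fun i => M.cellseq Xs (i + 1)) := by
  have hL0 : 0 < M.L := by unfold L; omega
  have hdm : ∀ i t, t < M.L → (i * M.L + t) / M.L = i ∧ (i * M.L + t) % M.L = t := by
    intro i t ht
    constructor
    · rw [show i * M.L + t = t + M.L * i by ring, Nat.add_mul_div_left _ _ hL0,
        Nat.div_eq_of_lt ht, zero_add]
    · rw [show i * M.L + t = t + M.L * i by ring, Nat.add_mul_mod_self_left,
        Nat.mod_eq_of_lt ht]
  refine Frm.bad_of_potential (M.frm lt eta inj ne) (M.cellseq Xs) ?_ (M.cellseq_legal Xs hrho)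
    (fun P φ => ∃ b x q g, x < M.W ∧ g ≤ M.G ∧ (x ≠ 0 → g = 0) ∧
      P = (b * M.W + x) * M.L + (M.tq q + g) ∧
      (if x = 0 then V b q else V (b + 1) q) - 1 - g ≤ φ) ?_ ?_ ?_ m
  · have := M.cellseq_eq Xs 0 0 M.Wpos
    rw [zero_mul, zero_add, hX0] at this
    exact this
  · rintro P φ ⟨b, x, q, g, hx, hg, _, rfl, _⟩
    have h4 := M.tq_lt q g hg
    have h5 := M.tq_pos q
    change 1 ≤ _ % M.L ∧ _ % M.L + 1 < M.L
    rw [(hdm _ _ (by omega)).2]
    omega
  · rintro P φ y l ⟨b, x, q, g, hx, hg, hxg, rfl, hφ⟩ hy hyl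
    have h4 := M.tq_lt q g hg
    have h5 := M.tq_pos q
    change M.Base lt y at hy
    change y = lt (M.cellseq Xs (_ / M.L)) (_ % M.L) :: l at hyl
    change ((_ + y.length) % M.L = 0 ∧ 1 ≤ φ + ((_ + y.length) / M.L : ℕ) - (_ / M.L : ℕ)) ∨
      ∃ φ', _ ∧ 1 + φ' ≤ φ + ((_ + y.length) / M.L : ℕ) - (_ / M.L : ℕ)
    obtain ⟨hd1, hd2⟩ := hdm (b * M.W + x) (M.tq q + g) (by omega)
    rw [hd1, hd2, M.cellseq_eq Xs b x hx] at hyl
    rw [hd1]
    cases hy with
    | cruise X x' d q' h6 h7 h8 =>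
      have h9 := M.tq_lt q' 0 (Nat.zero_le _)
      rw [show seg lt (X, x') (M.tq q') M.L = lt (X, x') (M.tq q') ::
        seg lt (X, x') (M.tq q' + 1) M.L from (M.frm lt eta inj ne).seg_cons _ _ _ (by
          omega)] at hyl
      obtain ⟨e1, e2⟩ := inj _ _ _ _ (List.cons.inj hyl).1
      obtain ⟨rfl, rfl⟩ := Prod.mk.inj e1
      obtain rfl := hxg (by omega)
      obtain ⟨rfl, _⟩ := M.tq_inj q' q 0 0 (Nat.zero_le _) (Nat.zero_le _) (by simpa using e2)
      right
      have hlen : (seg lt (Xs b, x') (M.tq q') M.L ++ seg lt d 0 (M.tq q')).length = M.L := by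
        simp [seg]; omega
      rw [hlen]
      have e3 : (b * M.W + x') * M.L + (M.tq q' + 0) + M.L =
          (b * M.W + x' + 1) * M.L + (M.tq q' + 0) := by ring
      refine ⟨φ, ?_, ?_⟩
      · rw [if_neg (by omega)] at hφ
        by_cases hx1 : x' + 1 < M.W
        · refine ⟨b, x' + 1, q', 0, hx1, Nat.zero_le _, fun _ => rfl, ?_, ?_⟩
          · rw [e3]; ring
          · rw [if_neg (by omega)]; exact hφ
        · have hx2 : x' + 1 = M.W := by omega
          refine ⟨b + 1, 0, q', 0, M.Wpos, Nat.zero_le _, fun _ => rfl, ?_, ?_⟩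
          · rw [e3, ← hx2]; ring
          · rw [if_pos rfl]; exact hφ
      · rw [e3, (hdm _ _ (by omega)).1]
        push_cast
        omega
    | inside X q1 g1 l1 q2 g' h6 h7 =>
      obtain ⟨h8, _⟩ := M.hG _ _ _ _ _ h6
      obtain ⟨e1, e2⟩ := inj _ _ _ _ (List.cons.inj hyl).1
      obtain ⟨rfl, rfl⟩ := Prod.mk.inj e1
      obtain ⟨rfl, rfl⟩ := M.tq_inj _ _ _ _ (by omega) hg e2
      right
      rw [List.length_singleton]
      refine ⟨φ - 1, ⟨b, 0, q1, g' + 1, M.Wpos, by omega, fun h => absurd rfl h, by ring, ?_⟩, ?_⟩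
      · rw [if_pos rfl] at hφ ⊢
        push_cast
        omega
      · rw [show (b * M.W + 0) * M.L + (M.tq q1 + g') + 1 =
          (b * M.W + 0) * M.L + (M.tq q1 + g' + 1) by ring, (hdm _ _ (by omega)).1]
        push_cast
        omega
    | jump X q1 g1 l1 q2 h6 =>
      obtain ⟨h8, h8'⟩ := M.hG _ _ _ _ _ h6
      have h9 := M.tq_lt q1 g1 h8
      have h10 := M.tq_lt q2 0 (Nat.zero_le _)
      have hLL : M.L ≤ (l1 + 1) * M.L := by rw [add_mul]; omega
      obtain ⟨r, hr⟩ := wt_cons lt M.L (fun x => (X, x)) (M.tq q1 + g1)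
        ((l1 + 1) * M.L + M.tq q2 - (M.tq q1 + g1)) (by omega) (by omega)
      rw [hr] at hyl
      obtain ⟨e1, e2⟩ := inj _ _ _ _ (List.cons.inj hyl).1
      obtain ⟨rfl, rfl⟩ := Prod.mk.inj e1
      obtain ⟨rfl, rfl⟩ := M.tq_inj _ _ _ _ h8 hg e2
      right
      rw [wt_length]
      have e3 : (b * M.W + 0) * M.L + (M.tq q1 + g1) +
          ((l1 + 1) * M.L + M.tq q2 - (M.tq q1 + g1)) =
          (b * M.W + (l1 + 1)) * M.L + (M.tq q2 + 0) := by
        rw [add_mul (b * M.W) (l1 + 1)]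
        have : (b * M.W + 0) * M.L = b * M.W * M.L := by ring
        rw [this]
        omega
      have h11 := hV b q1 g1 l1 q2 h6
      refine ⟨V (b + 1) q2 - 1, ⟨b, l1 + 1, q2, 0, by unfold W; omega, Nat.zero_le _,
        fun _ => rfl, e3, ?_⟩, ?_⟩
      · rw [if_neg (by omega)]
        simp
      · rw [e3, (hdm _ _ (by omega)).1]
        rw [if_pos rfl] at hφ
        push_cast
        omega
    | exit X q1 h6 =>
      have h9 := M.tq_lt q1 0 (Nat.zero_le _)
      obtain ⟨r, hr⟩ := wt_cons lt M.L (fun x => (X, x)) (M.tq q1)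
        (2 * M.L - M.tq q1) (by omega) (by omega)
      rw [hr] at hyl
      obtain ⟨e1, e2⟩ := inj _ _ _ _ (List.cons.inj hyl).1
      obtain ⟨rfl, rfl⟩ := Prod.mk.inj e1
      obtain ⟨rfl, rfl⟩ := M.tq_inj q1 q 0 g (Nat.zero_le _) hg (by simpa using e2)
      left
      rw [wt_length]
      have e3 : (b * M.W + 0) * M.L + (M.tq q1 + 0) + (2 * M.L - M.tq q1) =
          (b * M.W + 2) * M.L + 0 := by
        rw [add_mul (b * M.W) 2]
        have : (b * M.W + 0) * M.L = b * M.W * M.L := by ring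
        rw [this]
        omega
      rw [e3, (hdm _ _ hL0).1, (hdm _ _ hL0).2]
      have h11 := hE b q1 h6
      rw [if_pos rfl] at hφ
      refine ⟨rfl, ?_⟩
      push_cast
      push_cast at hφ
      omega
  · refine ⟨0, 0, M.m1, 0, M.Wpos, Nat.zero_le _, fun _ => rfl, ?_, ?_⟩
    · change M.tq M.m1 = _
      ring
    · rw [if_pos rfl]
      push_cast
      omega

end Blk

end Pool.Agent.Helper948.Conj
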