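import Pool.Agent.Helper948.Conj.MachRun

set_option autoImplicit false

/-! Concrete lists of words for the machines, and their computability. -/

namespace Pool.Agent.Helper948.Conj

/-- fixed data of a machine; the input is the initial value of the first counter -/
structure Dat where
  nK : ℕ
  a0 : Fin nK → Bool → ℕ
  b0 : Fin nK → Bool → ℕ
  r0 : Fin nK → Bool → ℕ
  nex0 : Fin nK → Fin nK → Bool
  st0 : Fin nK → Bool
  B : ℕ
  l : ℕ
  hB : 0 < B
  ha : ∀ c j, a0 c j ≤ l
  hb : ∀ c j, b0 c j ≤ l
  hr : ∀ c j, r0 c j < B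

namespace Dat

variable (D : Dat)

abbrev K := Option (Fin D.nK)

abbrev Bk := Option (Fin D.nK) × Option Bool

abbrev Cel := (Option (Fin D.nK) × Option Bool) × ℕ

def av : D.K → Bool → ℕ
  | none, _ => 0
  | some c, j => D.a0 c j

def bv (N : ℕ) : D.K → Bool → ℕ
  | none, j => if j then N else 0
  | some c, j => D.b0 c j

def rv : D.K → Bool → ℕ
  | none, _ => 0
  | some c, j => D.r0 c j

def nexv : D.K → D.K → Bool
  | none, some c => D.st0 c
  | some c, some d => D.nex0 c d
  | _, none => false

/-- the machine with input `N` -/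
def mach (N : ℕ) : Mach D.K where
  B := D.B
  hB := D.hB
  a := D.av
  b := D.bv N
  r := D.rv
  nex c d := D.nexv c d = true
  ini := none
  hini := by intro c; cases c <;> simp [nexv]
  G := N + D.l + D.B + 1
  ha := by
    rintro (_ | c) j
    · simp [av]
    · have := D.ha c j
      simp only [av]
      omega
  hb := by
    rintro (_ | c) j
    · simp only [bv]
      split_ifs <;> omega
    · have := D.hb c j
      simp only [bv]
      omega
  hr := by
    rintro (_ | c) j
    · simp only [rv]
      omega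
    · have := D.hr c j
      simp only [rv]
      omega
  hBG := by omega
  all := none :: (List.finRange D.nK).map some
  hall := by
    rintro (_ | c)
    · simp
    · simp

/-- the letter `t` of the cell `c` -/
def code (c : D.Cel) (t : ℕ) : ℕ := Encodable.encode (c, t) + 1

theorem code_inj (c : D.Cel) (i : ℕ) (d : D.Cel) (j : ℕ) (h : D.code c i = D.code d j) :
    c = d ∧ i = j := by
  unfold code at h
  have := Encodable.encode_injective (Nat.succ.inj h)
  exact Prod.mk.inj this

theorem code_ne (c : D.Cel) (i : ℕ) : D.code c i ≠ 0 := by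
  unfold code
  omega

/-- the frame -/
def fr (N : ℕ) : Frm ℕ D.Cel := (D.mach N).blk.frm D.code 0 D.code_inj D.code_ne

def Gn (N : ℕ) : ℕ := N + D.l + D.B + 1

def Ln (N : ℕ) : ℕ := 9 * (D.Gn N + 1) + 2

def Wn (N : ℕ) : ℕ := D.Gn N + 2

def tn (N : ℕ) (q : St) : ℕ := 1 + sidx q * (D.Gn N + 1)

/-- the list of all blocks -/
def bks : List D.Bk :=
  (none :: (List.finRange D.nK).map some).flatMap fun c => [(c, none), (c, some true), (c, some false)]

def sts : List St := none :: [(true, true, true), (true, true, false), (true, false, true),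
  (true, false, false), (false, true, true), (false, true, false), (false, false, true),
  (false, false, false)].map some

theorem mem_sts (q : St) : q ∈ sts := by
  rcases q with _ | ⟨x, y, z⟩
  · simp [sts]
  · revert x y z
    decide

def cels (N : ℕ) : List D.Cel := D.bks.flatMap fun X => (List.range (D.Wn N)).map fun i => (X, i)

theorem mem_cels (N : ℕ) (c : D.Cel) : c ∈ D.cels N ↔ c ∈ (D.mach N).blk.cells := Iff.rfl

theorem mem_bks (X : D.Bk) : X ∈ D.bks := (D.mach 0).blk.hall X

/-- letters `i, …, j - 1` of a cell -/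
def sg (c : D.Cel) (i j : ℕ) : List ℕ := (List.range (j - i)).map fun k => D.code c (i + k)

theorem sg_eq (c : D.Cel) (i j : ℕ) : D.sg c i j = seg D.code c i j := by
  unfold sg seg
  rw [List.range'_eq_map_range, List.map_map]
  rfl

/-- pieces of the text of a block -/
def wx (X : D.Bk) (L P n : ℕ) : List ℕ :=
  (List.range n).map fun k => D.code (X, (P + k) / L) ((P + k) % L)

theorem wx_eq (X : D.Bk) (L P n : ℕ) :
    D.wx X L P n = wt D.code L (fun x => (X, x)) P n := by
  unfold wx wt
  rw [List.range'_eq_map_range, List.map_map]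
  rfl

/-- transitions -/
def dl (N : ℕ) (X : D.Bk) (q : St) : List (ℕ × ℕ × St) :=
  if X = (none, none) ∧ q = none then
    [(0, 0, none), (0, 1, some (true, false, false)), (0, N + 1, some (true, false, true)),
      (0, 0, some (false, false, false)), (N, 0, some (false, false, true))]
  else (D.mach 0).del X q

theorem dl_eq (N : ℕ) (X : D.Bk) (q : St) : D.dl N X q = (D.mach N).del X q := by
  unfold dl
  obtain ⟨_ | c, _ | i⟩ := X <;> rcases q with _ | ⟨_ | _, _ | _, j⟩ <;>
    simp [Mach.del, mach, av, bv, rv]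

/-- exits -/
def exb (X : D.Bk) : St → Bool
  | some (true, true, _) => true
  | some (false, true, _) => if X.2 = none then true else false
  | _ => false

theorem exb_iff (X : D.Bk) (q : St) : D.exb X q = true ↔ Mach.ex X q := by
  obtain ⟨c, _ | i⟩ := X <;> rcases q with _ | ⟨_ | _, _ | _, j⟩ <;> simp [exb, Mach.ex]

/-- block legality -/
def rhb (X Y : D.Bk) : Bool :=
  (decide (Y.1 = X.1) && !decide (Y.2 = none) && !decide (X.1 = none)) ||
    (decide (Y.2 = none) && D.nexv X.1 Y.1)

theorem rhb_iff (N : ℕ) (X Y : D.Bk) : D.rhb X Y = true ↔ (D.mach N).blk.rho X Y := by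
  change _ ↔ (Y.1 = X.1 ∧ Y.2 ≠ none ∧ X.1 ≠ none) ∨ (Y.2 = none ∧ D.nexv X.1 Y.1 = true)
  simp only [rhb, Bool.or_eq_true, Bool.and_eq_true, decide_eq_true_eq, Bool.not_eq_true',
    decide_eq_false_iff_not, ne_eq, and_assoc]

/-- cell legality -/
def Rc (N : ℕ) (c d : D.Cel) : Prop :=
  d.2 < D.Wn N ∧ ((c.1 = d.1 ∧ d.2 = c.2 + 1) ∨ (c.2 + 1 = D.Wn N ∧ d.2 = 0 ∧ D.rhb c.1 d.1 = true))

instance (N : ℕ) (c d : D.Cel) : Decidable (D.Rc N c d) := by
  unfold Rc
  infer_instance

theorem Rc_iff (N : ℕ) (c d : D.Cel) : D.Rc N c d ↔ (D.mach N).blk.R c d := by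
  unfold Rc Blk.R
  rw [D.rhb_iff N]
  exact Iff.rfl

def base1 (N : ℕ) : List (List ℕ) :=
  (D.cels N).flatMap fun c => (D.cels N).flatMap fun d => sts.flatMap fun q =>
    if c.2 = 0 then [] else [D.sg c (D.tn N q) (D.Ln N) ++ D.sg d 0 (D.tn N q)]

def base2 (N : ℕ) : List (List ℕ) :=
  D.bks.flatMap fun X => sts.flatMap fun q => (D.dl N X q).flatMap fun t =>
    (List.range t.1).map fun g' => [D.code (X, 0) (D.tn N q + g')]

def base3 (N : ℕ) : List (List ℕ) :=
  D.bks.flatMap fun X => sts.flatMap fun q => (D.dl N X q).map fun t =>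
    D.wx X (D.Ln N) (D.tn N q + t.1) ((t.2.1 + 1) * D.Ln N + D.tn N t.2.2 - (D.tn N q + t.1))

def base4 (N : ℕ) : List (List ℕ) :=
  D.bks.flatMap fun X => sts.flatMap fun q =>
    if D.exb X q = true then [D.wx X (D.Ln N) (D.tn N q) (2 * D.Ln N - D.tn N q)] else []

def baseL (N : ℕ) : List (List ℕ) := D.base1 N ++ D.base2 N ++ D.base3 N ++ D.base4 N

theorem mem_baseL (N : ℕ) (w : List ℕ) : w ∈ D.baseL N ↔ (D.fr N).base w := by
  change _ ↔ (D.mach N).blk.Base D.code w
  unfold baseL
  simp only [List.mem_append]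
  constructor
  · rintro (((h | h) | h) | h)
    · simp only [base1, List.mem_flatMap] at h
      obtain ⟨c, hc, d, hd, q, _, h⟩ := h
      split_ifs at h with h0
      · simp at h
      · simp only [List.mem_singleton] at h
        rw [h, sg_eq, sg_eq]
        obtain ⟨X, x⟩ := c
        have hx := ((D.mach N).blk.mem_cells _).1 hc
        exact Blk.Base.cruise X x d q (by simp at h0; omega) hx hd
    · simp only [base2, List.mem_flatMap, List.mem_map, List.mem_range] at h
      obtain ⟨X, _, q, _, ⟨g, l, q'⟩, ht, g', hg', rfl⟩ := h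
      rw [dl_eq] at ht
      exact Blk.Base.inside X q g l q' g' ht hg'
    · simp only [base3, List.mem_flatMap, List.mem_map] at h
      obtain ⟨X, _, q, _, ⟨g, l, q'⟩, ht, rfl⟩ := h
      rw [dl_eq] at ht
      rw [wx_eq]
      exact Blk.Base.jump X q g l q' ht
    · simp only [base4, List.mem_flatMap] at h
      obtain ⟨X, _, q, _, h⟩ := h
      split_ifs at h with h0
      · simp only [List.mem_singleton] at h
        rw [h, wx_eq]
        exact Blk.Base.exit X q ((D.exb_iff X q).1 h0)
      · simp at h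
  · intro h
    cases h with
    | cruise X x d q h1 h2 h3 =>
      left; left; left
      simp only [base1, List.mem_flatMap]
      refine ⟨(X, x), ((D.mach N).blk.mem_cells _).2 h2, d, h3, q, mem_sts q, ?_⟩
      rw [if_neg (by simp; omega), sg_eq, sg_eq]
      exact List.mem_singleton.2 rfl
    | inside X q g l q' g' h1 h2 =>
      left; left; right
      simp only [base2, List.mem_flatMap, List.mem_map, List.mem_range]
      exact ⟨X, D.mem_bks X, q, mem_sts q, (g, l, q'), by rw [dl_eq]; exact h1, g', h2, rfl⟩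
    | jump X q g l q' h1 =>
      left; right
      simp only [base3, List.mem_flatMap, List.mem_map]
      refine ⟨X, D.mem_bks X, q, mem_sts q, (g, l, q'), by rw [dl_eq]; exact h1, ?_⟩
      rw [wx_eq]
      rfl
    | exit X q h1 =>
      right
      simp only [base4, List.mem_flatMap]
      refine ⟨X, D.mem_bks X, q, mem_sts q, ?_⟩
      rw [if_pos ((D.exb_iff X q).2 h1), wx_eq]
      exact List.mem_singleton.2 rfl

def To (N : ℕ) (c : D.Cel) : List ℕ := D.sg c 0 (D.Ln N)

def po (N : ℕ) (c : D.Cel) : List ℕ := D.sg c 1 (D.Ln N)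

def qo (N : ℕ) (c : D.Cel) : List ℕ := D.sg c 1 (D.Ln N - 1)

def la (N : ℕ) (c : D.Cel) : ℕ := D.code c (D.Ln N - 1)

theorem To_eq (N : ℕ) (c : D.Cel) : D.To N c = (D.fr N).T c := D.sg_eq _ _ _

theorem po_eq (N : ℕ) (c : D.Cel) : D.po N c = (D.fr N).p c := by
  unfold po
  rw [sg_eq]
  unfold Frm.p
  have : (D.fr N).o = 1 := by
    change 1 + sidx none * _ = 1
    simp [sidx]
  rw [this]
  rfl

theorem qo_eq (N : ℕ) (c : D.Cel) : D.qo N c = (D.fr N).q c := by
  unfold qo
  rw [sg_eq]
  unfold Frm.q
  have : (D.fr N).o = 1 := by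
    change 1 + sidx none * _ = 1
    simp [sidx]
  rw [this]
  rfl

/-- the words `u`, other than the empty word and the tokens -/
def UL0 (N : ℕ) : List (List ℕ) := [0] :: (D.baseL N ++ (D.cels N).map (D.qo N))

def UL (N : ℕ) : List (List ℕ) := [] :: ((D.cels N).map (D.To N) ++ D.UL0 N)

theorem mem_UL (N : ℕ) (w : List ℕ) : w ∈ D.UL N ↔ (D.fr N).U w := by
  simp only [UL, UL0, List.mem_cons, List.mem_append, List.mem_map]
  constructor
  · rintro (rfl | ⟨d, hd, rfl⟩ | rfl | h | ⟨b, hb, rfl⟩)
    · exact Frm.U.nil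
    · rw [To_eq]; exact Frm.U.tok d hd
    · exact Frm.U.eta
    · exact Frm.U.base w ((D.mem_baseL N w).1 h)
    · rw [qo_eq]; exact Frm.U.q b hb
  · intro h
    cases h with
    | nil => simp
    | eta => right; right; left; rfl
    | tok d hd => right; left; exact ⟨d, hd, D.To_eq N d⟩
    | base _ hy => right; right; right; left; exact (D.mem_baseL N w).2 hy
    | q b hb => right; right; right; right; exact ⟨b, hb, D.qo_eq N b⟩

def y1 (N : ℕ) : List (List ℕ) :=
  (D.cels N).flatMap fun e => (D.UL N).map fun u => D.la N e :: u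

def y2 (N : ℕ) : List (List ℕ) :=
  (D.cels N).flatMap fun e => (D.cels N).flatMap fun f => (D.UL N).map fun u =>
    D.la N e :: D.la N f :: u

def y3 (N : ℕ) : List (List ℕ) :=
  (D.cels N).flatMap fun b => (D.UL0 N).map fun u => D.po N b ++ u

def y4 (N : ℕ) : List (List ℕ) :=
  (D.cels N).flatMap fun b => (D.cels N).flatMap fun d =>
    if D.Rc N b d then [] else [D.po N b ++ D.To N d]

def y5 (N : ℕ) : List (List ℕ) :=
  (D.cels N).flatMap fun b => (D.cels N).flatMap fun e => (D.UL N).map fun u =>
    D.po N b ++ D.la N e :: u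

/-- the list `Y` -/
def YL (N : ℕ) : List (List ℕ) :=
  [0] :: ((D.cels N).map (D.To N) ++ D.baseL N ++ D.y1 N ++ D.y2 N ++ D.y3 N ++ D.y4 N ++ D.y5 N)

/-- the list `X` -/
def XL (N : ℕ) : List (List ℕ) := (0 :: D.po N ((none, none), 0)) :: D.YL N

theorem UL0_ok (N : ℕ) (u : List ℕ) (hu : u ∈ D.UL0 N) :
    (D.fr N).U u ∧ u ≠ [] ∧ ∀ d, u ≠ (D.fr N).T d := by
  refine ⟨(D.mem_UL N u).1 (by simp [UL, hu]), ?_⟩
  have hoL := (D.fr N).hoL
  have ho := (D.fr N).ho
  simp only [UL0, List.mem_cons, List.mem_append, List.mem_map] at hu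
  rcases hu with rfl | h | ⟨b, hb, rfl⟩
  · refine ⟨by simp, fun d h => ?_⟩
    rw [Frm.T_cons] at h
    exact D.code_ne _ _ (List.cons.inj h).1.symm
  · obtain ⟨c, t, l, h1, _, h2⟩ := (D.fr N).hb u ((D.mem_baseL N u).1 h)
    refine ⟨by rw [h2]; simp, fun d h => ?_⟩
    rw [Frm.T_cons, h2] at h
    have := (D.code_inj _ _ _ _ (List.cons.inj h).1).2
    omega
  · rw [qo_eq, Frm.q_cons]
    refine ⟨by simp, fun d h => ?_⟩
    rw [Frm.T_cons] at h
    have := (D.code_inj _ _ _ _ (List.cons.inj h).1).2
    omega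

theorem mem_YL (N : ℕ) (w : List ℕ) : w ∈ D.YL N ↔ (D.fr N).Y w := by
  simp only [YL, List.mem_cons, List.mem_append]
  constructor
  · rintro (rfl | ((((((h | h) | h) | h) | h) | h) | h))
    · exact Frm.Y.eta
    · rw [List.mem_map] at h
      obtain ⟨d, hd, rfl⟩ := h
      rw [To_eq]
      exact Frm.Y.tok d hd
    · exact Frm.Y.base w ((D.mem_baseL N w).1 h)
    · simp only [y1, List.mem_flatMap, List.mem_map] at h
      obtain ⟨e, he, u, hu, rfl⟩ := h
      exact Frm.Y.f1 e u he ((D.mem_UL N u).1 hu)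
    · simp only [y2, List.mem_flatMap, List.mem_map] at h
      obtain ⟨e, he, f, hf, u, hu, rfl⟩ := h
      exact Frm.Y.f2 e f u he hf ((D.mem_UL N u).1 hu)
    · simp only [y3, List.mem_flatMap, List.mem_map] at h
      obtain ⟨b, hb, u, hu, rfl⟩ := h
      obtain ⟨h1, h2, h3⟩ := D.UL0_ok N u hu
      rw [po_eq]
      exact Frm.Y.h0 b u hb h1 h2 (fun d _ => h3 d)
    · simp only [y4, List.mem_flatMap] at h
      obtain ⟨b, hb, d, hd, h⟩ := h
      split_ifs at h with h0
      · simp at h
      · simp only [List.mem_singleton] at h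
        rw [h, po_eq, To_eq]
        refine Frm.Y.h0 b _ hb (Frm.U.tok d hd) ?_ ?_
        · rw [Frm.T_cons]; simp
        · intro d' hd' h
          have := (D.fr N).T_inj h
          subst this
          exact h0 ((D.Rc_iff N b d).2 hd')
    · simp only [y5, List.mem_flatMap, List.mem_map] at h
      obtain ⟨b, hb, e, he, u, hu, rfl⟩ := h
      rw [po_eq]
      exact Frm.Y.h1 b e u hb he ((D.mem_UL N u).1 hu)
  · intro h
    cases h with
    | eta => left; rfl
    | tok d hd =>
      right; left; left; left; left; left; left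
      rw [List.mem_map]
      exact ⟨d, hd, D.To_eq N d⟩
    | base _ hy =>
      right; left; left; left; left; left; right
      exact (D.mem_baseL N w).2 hy
    | f1 e u he hu =>
      right; left; left; left; left; right
      simp only [y1, List.mem_flatMap, List.mem_map]
      exact ⟨e, he, u, (D.mem_UL N u).2 hu, rfl⟩
    | f2 e f u he hf hu =>
      right; left; left; left; right
      simp only [y2, List.mem_flatMap, List.mem_map]
      exact ⟨e, he, f, hf, u, (D.mem_UL N u).2 hu, rfl⟩
    | h0 b u hb hu hne hR =>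
      right
      rcases hu with _ | _ | ⟨d, hd⟩ | ⟨_, hy⟩ | ⟨b', hb'⟩
      · exact absurd rfl hne
      · left; left; right
        simp only [y3, List.mem_flatMap, List.mem_map]
        exact ⟨b, hb, [0], by simp [UL0], by rw [po_eq]; rfl⟩
      · left; right
        simp only [y4, List.mem_flatMap]
        refine ⟨b, hb, d, hd, ?_⟩
        rw [if_neg (fun h => hR d ((D.Rc_iff N b d).1 h) rfl), po_eq, To_eq]
        exact List.mem_singleton.2 rfl
      · left; left; right
        simp only [y3, List.mem_flatMap, List.mem_map]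
        exact ⟨b, hb, u, by simp [UL0, (D.mem_baseL N u).2 hy], by rw [po_eq]⟩
      · left; left; right
        simp only [y3, List.mem_flatMap, List.mem_map]
        refine ⟨b, hb, D.qo N b', ?_, by rw [po_eq, qo_eq]⟩
        simp only [UL0, List.mem_cons, List.mem_append, List.mem_map]
        right; right
        exact ⟨b', hb', rfl⟩
    | h1 b e u hb he hu =>
      right; right
      simp only [y5, List.mem_flatMap, List.mem_map]
      exact ⟨b, hb, e, he, u, (D.mem_UL N u).2 hu, by rw [po_eq]; rfl⟩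

theorem mem_XL (N : ℕ) (w : List ℕ) : w ∈ D.XL N ↔ (D.fr N).X w := by
  simp only [XL, List.mem_cons, mem_YL, Frm.X]
  rw [po_eq]
  constructor
  · rintro (h | h)
    · right; exact h
    · left; exact h
  · rintro (h | h)
    · right; exact h
    · left; exact h

end Dat

end Pool.Agent.Helper948.Conj
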