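import Pool.Agent.Helper948.Conj.Prim
import Pool.Agent.Helper948.Erode.Source

set_option autoImplicit false

/-! The source machines, and the final reduction. -/

namespace Pool.Agent.Helper948.Conj

open Pool.Agent.Helper948.Erode

section Source

variable {Q : Type} (M : Sys Q Bool) (q0 : Q) {nK : ℕ} (e : Q × (Bool → Fin M.B) ≃ Fin nK)

open Classical in
/-- the data of a counter machine -/
noncomputable def datOf : Dat where
  nK := nK
  a0 c j := M.a (e.symm c).1 (e.symm c).2 j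
  b0 c j := M.b (e.symm c).1 (e.symm c).2 j
  r0 c j := (e.symm c).2 j
  nex0 c d := decide (M.nxt (e.symm c).1 (e.symm c).2 = some (e.symm d).1)
  st0 c := decide ((e.symm c).1 = q0)
  B := M.B
  l := M.l
  hB := M.hB
  ha _ _ := M.ha _ _ _
  hb _ _ := M.hb _ _ _
  hr c j := ((e.symm c).2 j).2

theorem not_halts_of_run (N : ℕ) (h : ((datOf M q0 e).mach N).Run) :
    ¬ M.Halts (some q0) (ini N) := by
  classical
  obtain ⟨c, k, h0, hk0, hnex, hrun⟩ := h
  have hsome : ∀ i, ∃ x : Fin nK, c (i + 1) = some x := by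
    intro i
    have h1 := hnex i
    rcases hc : c (i + 1) with _ | x
    · exfalso
      rw [hc] at h1
      exact ((datOf M q0 e).mach N).hini _ h1
    · exact ⟨x, rfl⟩
  have key : ∀ o n, M.Halts o n → ∀ q, o = some q → ∀ i (x : Fin nK), c i = some x →
      (e.symm x).1 = q → (∀ j, n j = (e.symm x).2 j + M.B * k i j) → False := by
    intro o n h
    induction h with
    | stop n => intro q hq; simp at hq
    | step q n _ ih =>
      intro q1 hq1 i x hcx hx hn
      obtain rfl := Option.some.inj hq1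
      have hres : M.res n = (e.symm x).2 := by
        funext j
        apply Fin.ext
        simp only [Sys.res]
        rw [hn j, Nat.add_mul_mod_self_left, Nat.mod_eq_of_lt ((e.symm x).2 j).2]
      have hdiv : ∀ j, n j / M.B = k i j := by
        intro j
        rw [hn j, Nat.add_mul_div_left _ _ M.hB, Nat.div_eq_of_lt ((e.symm x).2 j).2, zero_add]
      obtain ⟨y, hy⟩ := hsome i
      have h1 := hnex i
      rw [hcx, hy] at h1
      have h2 : M.nxt (e.symm x).1 (e.symm x).2 = some (e.symm y).1 := of_decide_eq_true h1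
      rw [hx, ← hres] at h2
      refine ih (e.symm y).1 h2 (i + 1) y hy rfl ?_
      intro j
      have h3 := hrun i j
      rw [hcx, hy] at h3
      have h4 : (e.symm y).2 j + M.B * k (i + 1) j =
        M.a (e.symm x).1 (e.symm x).2 j * k i j + M.b (e.symm x).1 (e.symm x).2 j := h3
      rw [h4]
      simp only [Sys.nn]
      rw [hres, hdiv, hx]
  intro hh
  obtain ⟨x, hx⟩ := hsome 0
  have h1 := hnex 0
  rw [h0, hx] at h1
  have h2 : (e.symm x).1 = q0 := of_decide_eq_true h1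
  refine key _ _ hh q0 rfl 1 x hx h2 ?_
  intro j
  have h3 := hrun 0 j
  rw [h0, hx] at h3
  have h4 : (e.symm x).2 j + M.B * k (0 + 1) j = 0 * k 0 j + (if j then N else 0) := h3
  rw [zero_mul, zero_add, zero_add] at h4
  exact h4.symm

theorem run_of_not_halts (N : ℕ) (h : ¬ M.Halts (some q0) (ini N)) :
    ((datOf M q0 e).mach N).Run := by
  classical
  have hstep : ∀ s : {p : Q × (Bool → ℕ) // ¬ M.Halts (some p.1) p.2},
      ∃ s' : {p : Q × (Bool → ℕ) // ¬ M.Halts (some p.1) p.2},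
        M.nxt s.1.1 (M.res s.1.2) = some s'.1.1 ∧ s'.1.2 = M.nn s.1.1 s.1.2 := by
    rintro ⟨⟨q, n⟩, hs⟩
    simp only at hs
    rcases hq : M.nxt q (M.res n) with _ | q'
    · exfalso
      apply hs
      apply Sys.Halts.step
      rw [hq]
      exact Sys.Halts.stop _
    · refine ⟨⟨(q', M.nn q n), ?_⟩, rfl, rfl⟩
      intro h'
      apply hs
      apply Sys.Halts.step
      rw [hq]
      exact h'
  choose f hf1 hf2 using hstep
  let s : ℕ → {p : Q × (Bool → ℕ) // ¬ M.Halts (some p.1) p.2} := fun i => f^[i] ⟨(q0, ini N), h⟩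
  have hs0 : s 0 = ⟨(q0, ini N), h⟩ := rfl
  have hs : ∀ i, s (i + 1) = f (s i) := fun i => Function.iterate_succ_apply' f i _
  refine ⟨fun i => match i with
      | 0 => none
      | i + 1 => some (e ((s i).1.1, M.res (s i).1.2)),
    fun i j => match i with
      | 0 => 0
      | i + 1 => (s i).1.2 j / M.B, rfl, fun _ => rfl, ?_, ?_⟩
  · intro i
    cases i with
    | zero =>
      change decide ((e.symm (e ((s 0).1.1, M.res (s 0).1.2))).1 = q0) = true
      rw [Equiv.symm_apply_apply, hs0]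
      simp
    | succ i =>
      change decide (M.nxt (e.symm (e ((s i).1.1, M.res (s i).1.2))).1
        (e.symm (e ((s i).1.1, M.res (s i).1.2))).2 =
        some (e.symm (e ((s (i + 1)).1.1, M.res (s (i + 1)).1.2))).1) = true
      rw [Equiv.symm_apply_apply, Equiv.symm_apply_apply, decide_eq_true_eq, hs]
      exact hf1 _
  · intro i j
    have hd : ∀ i, (M.res (s i).1.2 j : ℕ) + M.B * ((s i).1.2 j / M.B) = (s i).1.2 j :=
      fun i => Nat.mod_add_div _ _
    cases i with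
    | zero =>
      change ((e.symm (e ((s 0).1.1, M.res (s 0).1.2))).2 j : ℕ) + M.B * ((s 0).1.2 j / M.B) =
        0 * 0 + (if j then N else 0)
      rw [Equiv.symm_apply_apply, hd, hs0, zero_mul, zero_add]
      rfl
    | succ i =>
      change ((e.symm (e ((s (i + 1)).1.1, M.res (s (i + 1)).1.2))).2 j : ℕ) +
        M.B * ((s (i + 1)).1.2 j / M.B) =
        M.a (e.symm (e ((s i).1.1, M.res (s i).1.2))).1
          (e.symm (e ((s i).1.1, M.res (s i).1.2))).2 j * ((s i).1.2 j / M.B) +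
        M.b (e.symm (e ((s i).1.1, M.res (s i).1.2))).1
          (e.symm (e ((s i).1.1, M.res (s i).1.2))).2 j
      rw [Equiv.symm_apply_apply, Equiv.symm_apply_apply, hd, hs, hf2]
      rfl

end Source

section Lists

variable (D : Dat) (N : ℕ)

theorem mem_YL_ne (w : List ℕ) (h : w ∈ D.YL N) : w ≠ [] :=
  Frm.Y_ne _ w ((D.mem_YL N w).1 h)

theorem letters_XL (w : List ℕ) (h : w ∈ D.XL N) : w ≠ [] ∧ ∀ a ∈ w, a < D.kn N := by
  refine ⟨?_, ?_⟩
  · rcases List.mem_cons.1 h with rfl | h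
    · simp
    · exact mem_YL_ne D N w h
  · intro a ha
    exact Dat.lt_bnd _ a (List.mem_flatten.2 ⟨w, h, ha⟩)

theorem letters_YL (w : List ℕ) (h : w ∈ D.YL N) : w ≠ [] ∧ ∀ a ∈ w, a < D.kn N :=
  letters_XL D N w (List.mem_cons_of_mem _ h)

theorem fac_letters {n : ℕ} {z : List ℕ} (h : Fac (D.fr N).Y n z) : ∀ a ∈ z, a < D.kn N := by
  induction h with
  | nil => simp
  | @cons y w n hy _ ih =>
    intro a ha
    rcases List.mem_append.1 ha with ha | ha
    · exact (letters_YL D N y ((D.mem_YL N y).2 hy)).2 a ha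
    · exact ih a ha

/-- no run: a solution over the alphabet -/
theorem exists_solution (h : ¬ (D.mach N).Run) : ∃ Z : Set (List ℕ), Z.Nonempty ∧
    (∀ z ∈ Z, ∀ a ∈ z, a < D.kn N) ∧
    {w | ∃ x ∈ D.XL N, ∃ z ∈ Z, w = x ++ z} = {w | ∃ z ∈ Z, ∃ y ∈ D.YL N, w = z ++ y} := by
  obtain ⟨n0, hn0⟩ := (D.mach N).solution D.code 0 D.code_inj D.code_ne h
  refine ⟨{z | ∃ n, n0 ≤ n ∧ Fac (D.fr N).Y n z}, ?_, ?_, ?_⟩
  · have : ∀ n, Fac (D.fr N).Y n (List.replicate n 0) := by
      intro n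
      induction n with
      | zero => exact Fac.nil
      | succ n ih =>
        rw [List.replicate_succ]
        exact Fac.cons (y := [0]) Frm.Y.eta ih
    exact ⟨_, n0, le_rfl, this n0⟩
  · rintro z ⟨n, _, hz⟩
    exact fac_letters D N hz
  · have e1 : {w | ∃ x ∈ D.XL N, ∃ z ∈ {z | ∃ n, n0 ≤ n ∧ Fac (D.fr N).Y n z}, w = x ++ z} =
        {w | ∃ x, (D.fr N).X x ∧ ∃ z, (∃ n, n0 ≤ n ∧ Fac (D.fr N).Y n z) ∧ w = x ++ z} := by
      ext w
      constructor
      · rintro ⟨x, hx, z, hz, rfl⟩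
        exact ⟨x, (D.mem_XL N x).1 hx, z, hz, rfl⟩
      · rintro ⟨x, hx, z, hz, rfl⟩
        exact ⟨x, (D.mem_XL N x).2 hx, z, hz, rfl⟩
    have e2 : {w | ∃ z ∈ {z | ∃ n, n0 ≤ n ∧ Fac (D.fr N).Y n z}, ∃ y ∈ D.YL N, w = z ++ y} =
        {w | ∃ z, (∃ n, n0 ≤ n ∧ Fac (D.fr N).Y n z) ∧ ∃ y, (D.fr N).Y y ∧ w = z ++ y} := by
      ext w
      constructor
      · rintro ⟨z, hz, y, hy, rfl⟩
        exact ⟨z, hz, y, (D.mem_YL N y).1 hy, rfl⟩
      · rintro ⟨z, hz, y, hy, rfl⟩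
        exact ⟨z, hz, y, (D.mem_YL N y).2 hy, rfl⟩
    rw [e1, e2]
    exact hn0

/-- a run: no solution -/
theorem no_solution_lists (h : (D.mach N).Run) (Z : Set (List ℕ)) (hne : Z.Nonempty)
    (hZ : ∀ x ∈ D.XL N, ∀ z ∈ Z, ∃ z' ∈ Z, ∃ y ∈ D.YL N, x ++ z = z' ++ y) : False := by
  refine (D.mach N).no_solution D.code 0 D.code_inj D.code_ne h Z hne ?_
  intro x hx z hz
  obtain ⟨z', h1, y, h2, h3⟩ := hZ x ((D.mem_XL N x).2 hx) z hz
  exact ⟨z', h1, y, (D.mem_YL N y).1 h2, h3⟩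

end Lists

/-- The reduction: there are computable `k, X, Y` with `X = Y ∪ {one word}` whose conjugacy
encodes an undecidable predicate. -/
theorem reduction : ∃ (k : ℕ → ℕ) (X Y : ℕ → List (List ℕ)) (P : ℕ → Prop),
    Computable k ∧ Computable X ∧ Computable Y ∧ ¬ ComputablePred P ∧
    (∀ n, ∀ w ∈ X n, w ≠ [] ∧ ∀ a ∈ w, a < k n) ∧
    (∀ n, ∀ w ∈ Y n, w ≠ [] ∧ ∀ a ∈ w, a < k n) ∧
    (∀ n, P n → ∃ Z : Set (List ℕ), Z.Nonempty ∧ (∀ z ∈ Z, ∀ a ∈ z, a < k n) ∧
      {w | ∃ x ∈ X n, ∃ z ∈ Z, w = x ++ z} = {w | ∃ z ∈ Z, ∃ y ∈ Y n, w = z ++ y}) ∧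
    (∀ n, ¬ P n → ∀ Z : Set (List ℕ), Z.Nonempty →
      (∀ x ∈ X n, ∀ z ∈ Z, ∃ z' ∈ Z, ∃ y ∈ Y n, x ++ z = z' ++ y) → False) := by
  obtain ⟨Q, hQ, M, q0, N, _, hN, hund⟩ := exists_sys
  obtain ⟨nK, ⟨e⟩⟩ := Finite.exists_equiv_fin (Q × (Bool → Fin M.B))
  let D := datOf M q0 e
  refine ⟨fun n => D.kn (N n), fun n => D.XL (N n), fun n => D.YL (N n),
    fun n => M.Halts (some q0) (ini (N n)), D.kn_pr.to_comp.comp hN, D.XL_pr.to_comp.comp hN,
    D.YL_pr.to_comp.comp hN, hund, fun n w h => letters_XL D _ w h, fun n w h => letters_YL D _ w h,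
    ?_, ?_⟩
  · intro n hP
    exact exists_solution D (N n) (fun hr => not_halts_of_run M q0 e _ hr hP)
  · intro n hP Z hne hZ
    exact no_solution_lists D (N n) (run_of_not_halts M q0 e _ hP) Z hne hZ

end Pool.Agent.Helper948.Conj
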