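import Mathlib

set_option autoImplicit false

/-! Frame of the reduction for the conjugacy problem `X Z = Z Y` of finite sets of words. -/

namespace Pool.Agent.Helper948.Conj

/-- `w` is a product of `n` words of `Y` -/
inductive Fac {α : Type} (Y : List α → Prop) : ℕ → List α → Prop
  | nil : Fac Y 0 []
  | cons {y w : List α} {n : ℕ} : Y y → Fac Y n w → Fac Y (n + 1) (y ++ w)

namespace Fac

variable {α : Type} {Y : List α → Prop}

theorem append {n m : ℕ} {u v : List α} (h : Fac Y n u) (h' : Fac Y m v) :
    Fac Y (n + m) (u ++ v) := by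
  induction h with
  | nil => simpa using h'
  | cons hy _ ih =>
    rw [List.append_assoc, Nat.add_right_comm]
    exact Fac.cons hy ih

theorem one {y : List α} (h : Y y) : Fac Y 1 y := by
  have := Fac.cons h Fac.nil
  rwa [List.append_nil] at this

theorem length_le (hne : ∀ y, Y y → y ≠ []) {n : ℕ} {w : List α} (h : Fac Y n w) :
    n ≤ w.length := by
  induction h with
  | nil => simp
  | @cons y w n hy _ ih =>
    have : 0 < y.length := List.length_pos_iff.2 (hne y hy)
    rw [List.length_append]
    omega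

theorem flatten {l : List (List α)} (h : ∀ y ∈ l, Y y) : Fac Y l.length l.flatten := by
  induction l with
  | nil => exact Fac.nil
  | cons y l ih =>
    rw [List.flatten_cons, List.length_cons]
    exact Fac.cons (h y (by simp)) (ih fun z hz => h z (by simp [hz]))

theorem exists_list {n : ℕ} {w : List α} (h : Fac Y n w) :
    ∃ l : List (List α), (∀ y ∈ l, Y y) ∧ l.length = n ∧ l.flatten = w := by
  induction h with
  | nil => exact ⟨[], by simp, rfl, rfl⟩
  | @cons y w n hy _ ih =>
    obtain ⟨l, h1, h2, h3⟩ := ih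
    refine ⟨y :: l, ?_, by simp [h2], by simp [h3]⟩
    intro z hz
    rcases List.mem_cons.1 hz with rfl | hz
    · exact hy
    · exact h1 z hz

theorem mono {Y' : List α → Prop} (hh : ∀ y, Y y → Y' y) {n : ℕ} {w : List α} (h : Fac Y n w) :
    Fac Y' n w := by
  induction h with
  | nil => exact Fac.nil
  | cons hy _ ih => exact Fac.cons (hh _ hy) ih

end Fac

/-- letters `i, …, j - 1` of the cell `c` -/
def seg {α C : Type} (lt : C → ℕ → α) (c : C) (i j : ℕ) : List α :=
  (List.range' i (j - i)).map (lt c)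

structure Frm (α C : Type) where
  lt : C → ℕ → α
  eta : α
  inj : ∀ c i d j, lt c i = lt d j → c = d ∧ i = j
  ne : ∀ c i, lt c i ≠ eta
  L : ℕ
  o : ℕ
  ho : 1 ≤ o
  hoL : o + 1 < L
  cells : List C
  star : C
  hstar : star ∈ cells
  R : C → C → Prop
  hR : ∀ c d, R c d → d ∈ cells
  base : List α → Prop
  hb : ∀ y, base y → ∃ c t l, 1 ≤ t ∧ t + 1 < L ∧ y = lt c t :: l
  hm : ∀ c d, c ∈ cells → R c d → base (seg lt c o L ++ seg lt d 0 o)

namespace Frm

variable {α C : Type} (F : Frm α C)

/-- the token of a cell -/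
def T (c : C) : List α := seg F.lt c 0 F.L

/-- the remainder of a cell from the mode-one offset -/
def p (c : C) : List α := seg F.lt c F.o F.L

/-- the same without the last letter -/
def q (c : C) : List α := seg F.lt c F.o (F.L - 1)

/-- the last letter of a cell -/
def last (c : C) : α := F.lt c (F.L - 1)

/-- the words used to build the closure tokens -/
inductive U : List α → Prop
  | nil : U []
  | eta : U [F.eta]
  | tok (d : C) : d ∈ F.cells → U (F.T d)
  | base (y : List α) : F.base y → U y
  | q (b : C) : b ∈ F.cells → U (F.q b)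

/-- the set `Y` -/
inductive Y : List α → Prop
  | eta : Y [F.eta]
  | tok (d : C) : d ∈ F.cells → Y (F.T d)
  | base (y : List α) : F.base y → Y y
  | f1 (e : C) (u : List α) : e ∈ F.cells → F.U u → Y (F.last e :: u)
  | f2 (e f : C) (u : List α) : e ∈ F.cells → f ∈ F.cells → F.U u →
      Y (F.last e :: F.last f :: u)
  | h0 (b : C) (u : List α) : b ∈ F.cells → F.U u → u ≠ [] → (∀ d, F.R b d → u ≠ F.T d) →
      Y (F.p b ++ u)
  | h1 (b e : C) (u : List α) : b ∈ F.cells → e ∈ F.cells → F.U u →
      Y (F.p b ++ F.last e :: u)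

/-- the set `X` -/
def X (w : List α) : Prop := F.Y w ∨ w = F.eta :: F.p F.star

theorem seg_append (c : C) (i j k : ℕ) (h1 : i ≤ j) (h2 : j ≤ k) :
    seg F.lt c i j ++ seg F.lt c j k = seg F.lt c i k := by
  unfold seg
  rw [← List.map_append]
  congr 1
  have := List.range'_append_1 (s := i) (m := j - i) (n := k - j)
  rw [show i + (j - i) = j by omega] at this
  rw [this]
  congr 1
  omega

theorem seg_cons (c : C) (i j : ℕ) (h : i < j) :
    seg F.lt c i j = F.lt c i :: seg F.lt c (i + 1) j := by
  unfold seg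
  rw [show j - i = (j - (i + 1)) + 1 by omega, List.range'_succ]
  rfl

theorem seg_length (c : C) (i j : ℕ) : (seg F.lt c i j).length = j - i := by
  simp [seg]

theorem T_cons (c : C) : F.T c = F.lt c 0 :: seg F.lt c 1 F.L := by
  have := F.hoL
  exact F.seg_cons c 0 F.L (by omega)

theorem p_cons (c : C) : F.p c = F.lt c F.o :: seg F.lt c (F.o + 1) F.L := by
  have := F.hoL
  exact F.seg_cons c F.o F.L (by omega)

theorem q_cons (c : C) : F.q c = F.lt c F.o :: seg F.lt c (F.o + 1) (F.L - 1) := by
  have := F.hoL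
  exact F.seg_cons c F.o (F.L - 1) (by omega)

theorem p_eq (c : C) : F.p c = F.q c ++ [F.last c] := by
  have := F.hoL
  unfold p q last
  rw [← F.seg_append c F.o (F.L - 1) F.L (by omega) (by omega)]
  congr 1
  rw [F.seg_cons c _ _ (by omega)]
  unfold seg
  rw [show F.L - (F.L - 1 + 1) = 0 by omega]
  rfl

theorem T_length (c : C) : (F.T c).length = F.L := by
  simp [T, seg_length]

theorem T_inj {c d : C} (h : F.T c = F.T d) : c = d := by
  rw [T_cons, T_cons] at h
  exact (F.inj _ _ _ _ (List.cons.inj h).1).1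

/-- the mode-one token -/
theorem p_T (c d : C) : F.p c ++ F.T d = (F.p c ++ seg F.lt d 0 F.o) ++ F.p d := by
  have := F.hoL
  rw [List.append_assoc]
  congr 1
  exact (F.seg_append d 0 F.o F.L (by omega) (by omega)).symm

theorem br (c : C) (hc : c ∈ F.cells) (y : List α) (hy : F.Y y) (hn : ∀ d, F.R c d → y ≠ F.T d) :
    ∃ n, 1 ≤ n ∧ Fac F.Y n (F.p c ++ y) := by
  have hq : ∀ b ∈ F.cells, F.Y (F.p c ++ F.q b) := by
    intro b hb
    refine Y.h0 c _ hc (U.q b hb) ?_ ?_
    · rw [q_cons]; simp
    · intro d _ h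
      rw [q_cons, T_cons] at h
      have := (F.inj _ _ _ _ (List.cons.inj h).1).2
      have := F.ho
      omega
  cases hy with
  | eta => exact ⟨1, le_rfl, Fac.one (Y.h0 c _ hc U.eta (by simp) hn)⟩
  | tok d hd =>
    refine ⟨1, le_rfl, Fac.one (Y.h0 c _ hc (U.tok d hd) ?_ hn)⟩
    rw [T_cons]; simp
  | base _ hy =>
    refine ⟨1, le_rfl, Fac.one (Y.h0 c _ hc (U.base y hy) ?_ hn)⟩
    obtain ⟨_, _, _, _, _, h⟩ := F.hb y hy
    rw [h]; simp
  | f1 e u he hu => exact ⟨1, le_rfl, Fac.one (Y.h1 c e u hc he hu)⟩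
  | f2 e f u he hf hu =>
    refine ⟨2, by omega, ?_⟩
    have := (Fac.one (Y.h1 c e [] hc he U.nil)).append (Fac.one (Y.f1 f u hf hu))
    simpa using this
  | h0 b u hb hu _ _ =>
    refine ⟨2, by omega, ?_⟩
    have := (Fac.one (hq b hb)).append (Fac.one (Y.f1 b u hb hu))
    rw [p_eq F b]
    simpa using this
  | h1 b e u hb he hu =>
    refine ⟨2, by omega, ?_⟩
    have := (Fac.one (hq b hb)).append (Fac.one (Y.f2 b e u hb he hu))
    rw [p_eq F b]
    simpa using this

/-- legal sequences of cells -/
def Leg : C → List C → Prop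
  | _, [] => True
  | c, d :: l => F.R c d ∧ Leg d l

/-- the text of a list of cells -/
def Tl (l : List C) : List α := (l.map F.T).flatten

/-- the prefix `l` is good -/
def Good (l : List C) : Prop := ∃ n, l.length ≤ n ∧ Fac F.Y n (F.p F.star ++ F.Tl l)

theorem dich (ys : List (List α)) : ∀ c ∈ F.cells, (∀ y ∈ ys, F.Y y) →
    (∃ l : List C, F.Leg c l ∧ ys = l.map F.T) ∨
      ∃ n, ys.length ≤ n ∧ Fac F.Y n (F.p c ++ ys.flatten) := by
  induction ys with
  | nil => intro c _ _; exact Or.inl ⟨[], trivial, rfl⟩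
  | cons y ys ih =>
    intro c hc hys
    by_cases h : ∃ d, F.R c d ∧ y = F.T d
    · obtain ⟨d, hd, rfl⟩ := h
      rcases ih d (F.hR c d hd) (fun z hz => hys z (by simp [hz])) with ⟨l, h1, h2⟩ | ⟨n, h1, h2⟩
      · exact Or.inl ⟨d :: l, ⟨hd, h1⟩, by simp [h2]⟩
      · right
        refine ⟨n + 1, by simpa using h1, ?_⟩
        rw [List.flatten_cons, ← List.append_assoc, p_T, List.append_assoc]
        exact Fac.cons (Y.base _ (F.hm c d hc hd)) h2
    · right
      push Not at h
      obtain ⟨n, h1, h2⟩ := F.br c hc y (hys y (by simp)) h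
      have h3 : Fac F.Y ys.length ys.flatten := Fac.flatten (fun z hz => hys z (by simp [hz]))
      refine ⟨n + ys.length, by simp; omega, ?_⟩
      rw [List.flatten_cons, ← List.append_assoc]
      exact h2.append h3

theorem Leg_append (l r : List C) : ∀ c, F.Leg c (l ++ r) → F.Leg c l := by
  induction l with
  | nil => intro c _; trivial
  | cons d l ih =>
    intro c h
    exact ⟨h.1, ih d h.2⟩

/-- the list is legal and all its prefixes are bad -/
def Ok (l : List C) : Prop := F.Leg F.star l ∧ ∀ l', l' <+: l → ¬ F.Good l'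

theorem Ok.append {l r : List C} (h : F.Ok (l ++ r)) : F.Ok l :=
  ⟨F.Leg_append l r _ h.1, fun l' hl => h.2 l' (hl.trans (List.prefix_append l r))⟩

/-- arbitrarily long extensions -/
def Inf (l : List C) : Prop := ∀ K, ∃ r : List C, r.length = K ∧ F.Ok (l ++ r)

theorem Leg_mem (l r : List C) (d : C) : ∀ c, F.Leg c (l ++ d :: r) → d ∈ F.cells := by
  induction l with
  | nil => intro c h; exact F.hR _ _ h.1
  | cons e l ih => intro c h; exact ih e h.2

theorem Inf.step {l : List C} (h : F.Inf l) : ∃ d, F.Inf (l ++ [d]) := by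
  classical
  by_contra hcon
  push Not at hcon
  have h1 : ∀ d, ∃ K, ∀ r : List C, r.length = K → ¬ F.Ok (l ++ [d] ++ r) := by
    intro d
    have := hcon d
    unfold Inf at this
    push Not at this
    obtain ⟨K, hK⟩ := this
    exact ⟨K, hK⟩
  choose f hf using h1
  obtain ⟨M, hM⟩ : ∃ M, ∀ d ∈ F.cells, f d ≤ M := by
    refine ⟨(F.cells.map f).sum, ?_⟩
    intro d hd
    exact List.single_le_sum (by simp) _ (List.mem_map.2 ⟨d, hd, rfl⟩)
  obtain ⟨r, hr, hok⟩ := h (M + 1)
  cases r with
  | nil => simp at hr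
  | cons d r =>
    have hd : d ∈ F.cells := F.Leg_mem l r d _ hok.1
    have h2 := hM d hd
    simp only [List.length_cons, Nat.add_right_cancel_iff] at hr
    refine hf d (r.take (f d)) (by simp; omega) ?_
    have h3 : l ++ d :: r = (l ++ [d] ++ r.take (f d)) ++ r.drop (f d) := by
      simp
    rw [h3] at hok
    exact Ok.append F hok

/-- König's lemma -/
theorem konig (h : F.Inf []) : ∃ s : ℕ → C, s 0 = F.star ∧ (∀ i, F.R (s i) (s (i + 1))) ∧
    ∀ m, ¬ F.Good ((List.range m).map fun i => s (i + 1)) := by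
  classical
  let nx : {l : List C // F.Inf l} → {l : List C // F.Inf l} := fun l =>
    ⟨l.1 ++ [(Inf.step F l.2).choose], (Inf.step F l.2).choose_spec⟩
  let f : ℕ → {l : List C // F.Inf l} := fun n => nx^[n] ⟨[], h⟩
  let t : ℕ → C := fun n => (Inf.step F (f n).2).choose
  have hf : ∀ n, (f (n + 1)).1 = (f n).1 ++ [t n] := by
    intro n
    have : f (n + 1) = nx (f n) := Function.iterate_succ_apply' nx n _
    rw [this]
  have hl : ∀ n, (f n).1 = (List.range n).map t := by
    intro n
    induction n with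
    | zero => rfl
    | succ n ih => rw [hf, ih, List.range_succ, List.map_append]; rfl
  have hok : ∀ n, F.Ok (f n).1 := by
    intro n
    obtain ⟨r, hr, hr2⟩ := (f n).2 0
    exact Ok.append F hr2
  refine ⟨fun n => match n with | 0 => F.star | n + 1 => t n, rfl, ?_, ?_⟩
  · have key : ∀ n (c : C), F.Leg c ((List.range (n + 1)).map t) →
        F.R (match n with | 0 => c | n + 1 => t n) (t n) := by
      intro n c hc
      have : ∀ (l : List C) (c d : C), F.Leg c (l ++ [d]) → F.R (l.getLast?.getD c) d := by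
        intro l
        induction l with
        | nil => intro c d h; exact h.1
        | cons e l ih =>
          intro c d h
          have := ih e d h.2
          cases l with
          | nil => exact this
          | cons e' l =>
            obtain ⟨x, hx⟩ : ∃ x, (e' :: l).getLast? = some x :=
              ⟨_, List.getLast?_eq_some_getLast (by simp)⟩
            rw [List.getLast?_cons_cons, hx]
            rw [hx] at this
            exact this
      rw [List.range_succ, List.map_append] at hc
      have h2 := this _ _ _ hc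
      cases n with
      | zero => exact h2
      | succ n =>
        rw [List.range_succ, List.map_append] at h2
        simpa using h2
    intro i
    have h1 := (hok (i + 1)).1
    rw [hl] at h1
    have := key i _ h1
    cases i with
    | zero => exact this
    | succ i => exact this
  · intro m
    have := (hok m).2 _ (List.prefix_refl _)
    rw [hl] at this
    exact this

/-- first half: no infinite bad sequence gives a solution -/
theorem solution (h : ¬ ∃ s : ℕ → C, s 0 = F.star ∧ (∀ i, F.R (s i) (s (i + 1))) ∧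
    ∀ m, ¬ F.Good ((List.range m).map fun i => s (i + 1))) :
    ∃ K, {w | ∃ x, F.X x ∧ ∃ z, (∃ n, K ≤ n ∧ Fac F.Y n z) ∧ w = x ++ z} =
      {w | ∃ z, (∃ n, K ≤ n ∧ Fac F.Y n z) ∧ ∃ y, F.Y y ∧ w = z ++ y} := by
  have h1 : ¬ F.Inf [] := fun h' => h (F.konig h')
  unfold Inf at h1
  push Not at h1
  obtain ⟨K, hK⟩ := h1
  refine ⟨K, ?_⟩
  have key : ∀ z n, K ≤ n → Fac F.Y n z → ∃ n', n ≤ n' ∧ Fac F.Y n' (F.p F.star ++ z) := by
    intro z n hn hz
    obtain ⟨l, h1, h2, rfl⟩ := hz.exists_list
    obtain ⟨l1, l2, rfl, hl1⟩ : ∃ l1 l2, l = l1 ++ l2 ∧ l1.length = K :=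
      ⟨l.take K, l.drop K, by simp, by simp; omega⟩
    have hl2 : Fac F.Y l2.length l2.flatten := Fac.flatten (fun y hy => h1 y (by simp [hy]))
    rcases F.dich l1 F.star F.hstar (fun y hy => h1 y (by simp [hy])) with
      ⟨m, hm1, hm2⟩ | ⟨n', hn1, hn2⟩
    · have h3 := hK m (by rw [← hl1, hm2]; simp)
      unfold Ok at h3
      push Not at h3
      obtain ⟨m', hm', hg⟩ := h3 hm1
      obtain ⟨r, hr⟩ := hm'
      simp only [List.nil_append] at hr
      obtain ⟨n', hn1, hn2⟩ := hg
      subst hm2
      subst hr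
      have h4 : Fac F.Y r.length (F.Tl r) := by
        have := Fac.flatten (Y := F.Y) (l := r.map F.T) (by
          intro y hy
          exact h1 y (by
            simp only [List.map_append, List.append_assoc, List.mem_append]
            right; left; exact hy))
        rw [List.length_map] at this
        exact this
      refine ⟨n' + r.length + l2.length, ?_, ?_⟩
      · simp at h2
        omega
      · have := (hn2.append h4).append hl2
        have e : F.p F.star ++ (List.map F.T (m' ++ r) ++ l2).flatten =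
          F.p F.star ++ F.Tl m' ++ F.Tl r ++ l2.flatten := by
          simp [Tl]
        rw [e]
        exact this
    · refine ⟨n' + l2.length, by simp at h2; omega, ?_⟩
      have := hn2.append hl2
      simpa using this
  ext w
  constructor
  · rintro ⟨x, hx, z, ⟨n, hn, hz⟩, rfl⟩
    have main : ∃ n', n + 1 ≤ n' ∧ Fac F.Y n' (x ++ z) := by
      rcases hx with hx | rfl
      · exact ⟨n + 1, le_rfl, Fac.cons hx hz⟩
      · obtain ⟨n', h1, h2⟩ := key z n hn hz
        exact ⟨n' + 1, by omega, Fac.cons (y := [F.eta]) Y.eta h2⟩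
    obtain ⟨n', h1, h2⟩ := main
    obtain ⟨l, h3, h4, h5⟩ := h2.exists_list
    obtain ⟨l', y, rfl⟩ : ∃ l' y, l = l' ++ [y] := by
      refine ⟨l.dropLast, l.getLast (by rintro rfl; simp at h4; omega), ?_⟩
      rw [List.dropLast_append_getLast]
    refine ⟨l'.flatten, ⟨l'.length, by simp at h4; omega,
      Fac.flatten (fun z hz => h3 z (by simp [hz]))⟩, y, h3 y (by simp), ?_⟩
    rw [← h5]; simp
  · rintro ⟨z, ⟨n, hn, hz⟩, y, hy, rfl⟩
    have h2 := hz.append (Fac.one hy)
    generalize hv : z ++ y = v at h2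
    cases h2 with
    | @cons x w _ hx hw => exact ⟨x, Or.inl hx, w, ⟨n, hn, hw⟩, rfl⟩

end Frm

end Pool.Agent.Helper948.Conj
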