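import Pool.Agent.Helper948.Conj.Path

set_option autoImplicit false

/-! Machines with two counters as block automata. -/

namespace Pool.Agent.Helper948.Conj

/-- a machine with two counters, affine on residue classes; `r` gives the residues -/
structure Mach (K : Type) where
  B : ℕ
  hB : 0 < B
  a : K → Bool → ℕ
  b : K → Bool → ℕ
  r : K → Bool → ℕ
  nex : K → K → Prop
  ini : K
  hini : ∀ κ, ¬ nex κ ini
  G : ℕ
  ha : ∀ κ j, a κ j ≤ G
  hb : ∀ κ j, b κ j + 1 ≤ G
  hr : ∀ κ j, r κ j + 1 ≤ G
  hBG : B ≤ G
  all : List K
  hall : ∀ κ, κ ∈ all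

abbrev St := Option (Bool × Bool × Bool)

/-- numbers of the states -/
def sidx : St → ℕ
  | none => 0
  | some (x, y, z) => 1 + ((if x then 4 else 0) + (if y then 2 else 0) + (if z then 1 else 0))

theorem sidx_inj (q q' : St) (h : sidx q = sidx q') : q = q' := by
  rcases q with _ | ⟨x, y, z⟩ <;> rcases q' with _ | ⟨x', y', z'⟩
  · rfl
  · simp only [sidx] at h; omega
  · simp only [sidx] at h; omega
  · revert h
    revert x y z x' y' z'
    decide

theorem sidx_lt (q : St) : sidx q < 9 := by
  rcases q with _ | ⟨x, y, z⟩
  · simp [sidx]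
  · revert x y z
    decide

namespace Mach

variable {K : Type} (m : Mach K)

/-- infinite runs -/
def Run : Prop := ∃ (c : ℕ → K) (k : ℕ → Bool → ℕ), c 0 = m.ini ∧ (∀ j, k 0 j = 0) ∧
  (∀ i, m.nex (c i) (c (i + 1))) ∧
  ∀ i j, m.r (c (i + 1)) j + m.B * k (i + 1) j = m.a (c i) j * k i j + m.b (c i) j

/-- the transitions -/
def del : K × Option Bool → St → List (ℕ × ℕ × St)
  | (c, none), none => [(0, 0, none), (0, m.b c false + 1, some (true, false, false)),
      (0, m.b c true + 1, some (true, false, true)), (m.b c false, 0, some (false, false, false)),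
      (m.b c true, 0, some (false, false, true))]
  | (_, some _), none => [(0, 0, none)]
  | (c, some i), some (true, false, j) => [(0, if i = j then m.a c j else 0, some (true, false, j))]
  | (c, none), some (true, false, j) => [(m.r c j, 0, some (true, true, j))]
  | (_, some i), some (true, true, j) => [(if i = j then m.B else 0, 0, some (true, true, j))]
  | (_, none), some (true, true, _) => []
  | (c, some i), some (false, false, j) =>
      [(if i = j then m.a c j else 0, 0, some (false, false, j))]
  | (c, none), some (false, false, j) => [(0, m.r c j + 1, some (false, true, j))]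
  | (_, some i), some (false, true, j) => [(0, if i = j then m.B else 0, some (false, true, j))]
  | (_, none), some (false, true, _) => []

/-- the exits -/
def ex : K × Option Bool → St → Prop
  | _, some (true, true, _) => True
  | (_, none), some (false, true, _) => True
  | _, _ => False

/-- the block automaton -/
def blk : Blk (K × Option Bool) St where
  G := m.G
  all := m.all.flatMap fun c => [(c, none), (c, some true), (c, some false)]
  hall := by
    rintro ⟨c, j⟩
    rw [List.mem_flatMap]
    refine ⟨c, m.hall c, ?_⟩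
    rcases j with _ | _ | _ <;> simp
  idx := sidx
  hidx := sidx_inj
  nS := 9
  hnS := sidx_lt
  rho X Y := (Y.1 = X.1 ∧ Y.2 ≠ none ∧ X.1 ≠ m.ini) ∨ (Y.2 = none ∧ m.nex X.1 Y.1)
  del := m.del
  hG := by
    rintro ⟨c, i⟩ q g l q' h
    have hb1 := m.hb c false
    have hb2 := m.hb c true
    have hB := m.hBG
    rcases i with _ | i <;> rcases q with _ | ⟨_ | _, _ | _, j⟩ <;>
      simp only [del, List.mem_cons, List.not_mem_nil, or_false, Prod.mk.injEq] at h
    · rcases h with ⟨rfl, rfl, _⟩ | ⟨rfl, rfl, _⟩ | ⟨rfl, rfl, _⟩ | ⟨rfl, rfl, _⟩ | ⟨rfl, rfl, _⟩ <;>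
        omega
    · have := m.hr c j
      obtain ⟨rfl, rfl, _⟩ := h
      omega
    · have := m.hr c j
      obtain ⟨rfl, rfl, _⟩ := h
      omega
    · obtain ⟨rfl, rfl, _⟩ := h
      omega
    · have := m.ha c j
      obtain ⟨rfl, rfl, _⟩ := h
      split_ifs <;> omega
    · obtain ⟨rfl, rfl, _⟩ := h
      split_ifs <;> omega
    · have := m.ha c j
      obtain ⟨rfl, rfl, _⟩ := h
      split_ifs <;> omega
    · obtain ⟨rfl, rfl, _⟩ := h
      split_ifs <;> omega
  ex := ex
  m1 := none
  hm1 := by
    rintro ⟨c, _ | i⟩ <;> simp [del]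
  ini := (m.ini, none)

section RunToBad

variable (c : ℕ → K) (k : ℕ → Bool → ℕ)

/-- the generator states: configuration, fresh, remaining units -/
abbrev Sg := ℕ × Bool × (ℕ × ℕ)

/-- value after a block -/
def VA (i : ℕ) (y : ℕ × ℕ) : St → ℤ
  | none => -1
  | some (true, false, j) => -(m.a (c i) j * (cond j y.1 y.2 : ℕ)) +
      (m.r (c (i + 1)) j + m.B * k (i + 1) j)
  | some (true, true, j) => m.B * (cond j y.1 y.2 : ℕ)
  | some (false, false, j) => m.a (c i) j * (cond j y.1 y.2 : ℕ) -
      (m.r (c (i + 1)) j + m.B * k (i + 1) j) - 1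
  | some (false, true, j) => -(m.B * (cond j y.1 y.2 : ℕ))

/-- value at a fresh configuration -/
def VF (i : ℕ) : St → ℤ
  | none => -1
  | some (true, false, j) => m.r (c i) j + m.B * k i j
  | some (true, true, _) => 0
  | some (false, false, j) => -(m.r (c i) j + m.B * k i j) - 1
  | some (false, true, _) => 0

theorem VF_eq (i : ℕ) (q : St) : m.VF c k (i + 1) q = m.VA c k i (0, 0) q := by
  rcases q with _ | ⟨_ | _, _ | _, _ | _⟩ <;> simp [VF, VA]

/-- the block of a generator state -/
def gblk : Sg → K × Option Bool
  | (i, true, _) => (c i, none)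
  | (i, false, y) => (c i, if 0 < y.1 then some true else some false)

/-- remaining units after the block -/
def grem : Sg → ℕ × ℕ
  | (_, true, y) => y
  | (_, false, y) => if 0 < y.1 then (y.1 - 1, y.2) else (y.1, y.2 - 1)

/-- next generator state -/
def gnext (s : Sg) : Sg :=
  if grem s = (0, 0) then (s.1 + 1, true, (k (s.1 + 1) true, k (s.1 + 1) false))
  else (s.1, false, grem s)

/-- potential of a generator state -/
def GV : Sg → St → ℤ
  | (i, true, _) => m.VF c k i
  | (i, false, y) => m.VA c k i y

theorem GV_next (s : Sg) (q : St) : m.GV c k (gnext k s) q = m.VA c k s.1 (grem s) q := by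
  unfold gnext
  split_ifs with h
  · rw [h]
    exact m.VF_eq c k s.1 q
  · rfl

/-- the generator -/
def gen : ℕ → Sg
  | 0 => (0, true, (0, 0))
  | n + 1 => gnext k (gen n)

theorem bad_of_run {α : Type} (lt : (K × Option Bool) × ℕ → ℕ → α) (eta : α)
    (inj : ∀ c i d j, lt c i = lt d j → c = d ∧ i = j) (ne : ∀ c i, lt c i ≠ eta)
    (h : m.Run) : ∃ s : ℕ → (K × Option Bool) × ℕ, s 0 = ((m.ini, none), 0) ∧
      (∀ i, m.blk.R (s i) (s (i + 1))) ∧
      ∀ n, ¬ (m.blk.frm lt eta inj ne).Good ((List.range n).map fun i => s (i + 1)) := by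
  obtain ⟨c, k, h0, hk0, hnex, hrun⟩ := h
  have inv : ∀ n, ((gen k n).2.1 = true → (gen k n).2.2 = (k (gen k n).1 true, k (gen k n).1 false)) ∧
      ((gen k n).2.1 = false → (0 < (gen k n).2.2.1 ∨ 0 < (gen k n).2.2.2) ∧ 0 < (gen k n).1) := by
    intro n
    induction n with
    | zero =>
      refine ⟨fun _ => ?_, fun h => ?_⟩
      · simp [gen, hk0]
      · simp [gen] at h
    | succ n ih =>
      rw [gen]
      generalize gen k n = s at ih
      unfold gnext
      split_ifs with h
      · exact ⟨fun _ => rfl, fun h => by simp at h⟩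
      · refine ⟨fun h => by simp at h, fun _ => ?_⟩
        simp only
        have h1 : 0 < (grem s).1 ∨ 0 < (grem s).2 := by
          by_contra hcon
          push Not at hcon
          exact h (Prod.ext (by simp; omega) (by simp; omega))
        refine ⟨h1, ?_⟩
        obtain ⟨i, f, y⟩ := s
        cases f with
        | false => exact (ih.2 rfl).2
        | true =>
          have h2 := ih.1 rfl
          simp only at h2
          subst h2
          simp only [grem] at h1
          by_contra hi
          have : i = 0 := by simpa using hi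
          subst this
          rw [hk0, hk0] at h1
          omega
  have hci : ∀ i, 0 < i → c i ≠ m.ini := by
    intro i hi h
    obtain ⟨i, rfl⟩ : ∃ i', i = i' + 1 := ⟨i - 1, by omega⟩
    have := hnex i
    rw [h] at this
    exact m.hini _ this
  refine ⟨m.blk.cellseq (fun n => gblk c (gen k n)), ?_, ?_, ?_⟩
  · have := m.blk.cellseq_eq (fun n => gblk c (gen k n)) 0 0 m.blk.Wpos
    rw [zero_mul, zero_add] at this
    rw [this]
    simp [gen, gblk, h0]
  · refine m.blk.cellseq_legal _ ?_
    intro n
    change ((gblk c (gen k (n + 1))).1 = (gblk c (gen k n)).1 ∧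
      (gblk c (gen k (n + 1))).2 ≠ none ∧ (gblk c (gen k n)).1 ≠ m.ini) ∨
      ((gblk c (gen k (n + 1))).2 = none ∧ m.nex (gblk c (gen k n)).1 (gblk c (gen k (n + 1))).1)
    have hfst : ∀ s : Sg, (gblk c s).1 = c s.1 := by
      rintro ⟨i, _ | _, y⟩ <;> rfl
    have h1 := (inv (n + 1)).2
    rw [gen] at h1 ⊢
    generalize gen k n = s at h1 ⊢
    rw [hfst, hfst]
    unfold gnext at h1 ⊢
    split_ifs at h1 ⊢ with h
    · right
      exact ⟨rfl, hnex _⟩
    · left
      refine ⟨rfl, ?_, hci _ (h1 rfl).2⟩
      simp only [gblk]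
      split_ifs <;> simp
  · refine m.blk.bad lt eta inj ne (fun n => gblk c (gen k n)) ?_ ?_
      (fun n q => m.GV c k (gen k n) q) ?_ ?_ ?_
    · simp [gen, gblk, h0, blk]
    · intro n
      change ((gblk c (gen k (n + 1))).1 = (gblk c (gen k n)).1 ∧
        (gblk c (gen k (n + 1))).2 ≠ none ∧ (gblk c (gen k n)).1 ≠ m.ini) ∨
        ((gblk c (gen k (n + 1))).2 = none ∧ m.nex (gblk c (gen k n)).1 (gblk c (gen k (n + 1))).1)
      have hfst : ∀ s : Sg, (gblk c s).1 = c s.1 := by
        rintro ⟨i, _ | _, y⟩ <;> rfl
      have h1 := (inv (n + 1)).2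
      rw [gen] at h1 ⊢
      generalize gen k n = s at h1 ⊢
      rw [hfst, hfst]
      unfold gnext at h1 ⊢
      split_ifs at h1 ⊢ with h
      · right
        exact ⟨rfl, hnex _⟩
      · left
        refine ⟨rfl, ?_, hci _ (h1 rfl).2⟩
        simp only [gblk]
        split_ifs <;> simp
    · intro n q g l q' hd
      change (g, l, q') ∈ m.del (gblk c (gen k n)) q at hd
      rw [gen, GV_next]
      have h1 := inv n
      generalize gen k n = s at hd h1
      obtain ⟨i, f, y⟩ := s
      cases f with
      | true =>
        have h2 := h1.1 rfl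
        simp only at h2
        subst h2
        have e1 := hrun i
        have e1t : (m.r (c (i + 1)) true : ℤ) + m.B * k (i + 1) true =
          m.a (c i) true * k i true + m.b (c i) true := by exact_mod_cast e1 true
        have e1f : (m.r (c (i + 1)) false : ℤ) + m.B * k (i + 1) false =
          m.a (c i) false * k i false + m.b (c i) false := by exact_mod_cast e1 false
        rcases q with _ | ⟨_ | _, _ | _, j⟩ <;>
          simp only [del, gblk, List.mem_cons, List.not_mem_nil, or_false, Prod.mk.injEq] at hd
        · rcases hd with ⟨rfl, rfl, rfl⟩ | ⟨rfl, rfl, rfl⟩ | ⟨rfl, rfl, rfl⟩ | ⟨rfl, rfl, rfl⟩ |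
            ⟨rfl, rfl, rfl⟩ <;> simp only [VA, GV, VF, grem, cond_true, cond_false] <;> push_cast <;>
            linarith
        · obtain ⟨rfl, rfl, rfl⟩ := hd
          simp only [VA, GV, VF, grem]
          cases j <;> simp only [cond_true, cond_false] <;> push_cast <;> linarith
        · obtain ⟨rfl, rfl, rfl⟩ := hd
          simp only [VA, GV, VF, grem]
          cases j <;> simp only [cond_true, cond_false] <;> push_cast <;> linarith
      | false =>
        obtain ⟨h2, _⟩ := h1.2 rfl
        simp only at h2
        obtain ⟨y1, y2⟩ := y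
        simp only at h2
        by_cases hy : 0 < y1
        · obtain ⟨z, rfl⟩ : ∃ z, y1 = z + 1 := ⟨y1 - 1, by omega⟩
          rcases q with _ | ⟨_ | _, _ | _, j⟩ <;>
            simp only [del, gblk, hy, if_true, List.mem_cons, List.not_mem_nil, or_false,
              Prod.mk.injEq] at hd <;> obtain ⟨rfl, rfl, rfl⟩ := hd <;> try cases j
          all_goals
            simp only [VA, GV, grem, hy, if_true, cond_true, cond_false, Nat.add_sub_cancel,
              if_false, Bool.true_eq_false]
            try push_cast
            try linarith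
        · have hy2 : 0 < y2 := by omega
          obtain ⟨z, rfl⟩ : ∃ z, y2 = z + 1 := ⟨y2 - 1, by omega⟩
          rcases q with _ | ⟨_ | _, _ | _, j⟩ <;>
            simp only [del, gblk, hy, if_false, List.mem_cons, List.not_mem_nil, or_false,
              Prod.mk.injEq] at hd <;> obtain ⟨rfl, rfl, rfl⟩ := hd <;> try cases j
          all_goals
            simp only [VA, GV, grem, hy, if_true, cond_true, cond_false, Nat.add_sub_cancel,
              if_false, Bool.false_eq_true]
            try push_cast
            try linarith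
    · intro n q he
      change ex (gblk c (gen k n)) q at he
      generalize gen k n = s at he
      obtain ⟨i, f, y⟩ := s
      cases f with
      | true =>
        rcases q with _ | ⟨_ | _, _ | _, j⟩ <;> simp [ex, gblk, GV, VF] at he ⊢
      | false =>
        rcases q with _ | ⟨_ | _, _ | _, j⟩
        · simp [ex] at he
        · simp [ex] at he
        · exfalso
          simp only [gblk] at he
          split_ifs at he <;> exact he
        · simp [ex] at he
        · simp only [GV, VA]
          positivity
    · simp [gen, GV, VF, blk]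

end RunToBad

end Mach

end Pool.Agent.Helper948.Conj
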