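import Pool.Agent.Helper948.Conj.Mach

set_option autoImplicit false

/-! A bad infinite sequence gives an infinite run of the machine. -/

namespace Pool.Agent.Helper948.Conj

namespace Mach

variable {K : Type} (m : Mach K)

/-- number of units of kind `j` among `n` blocks from `p` -/
def cnt (Xs : ℕ → K × Option Bool) (j : Bool) (p : ℕ) : ℕ → ℕ
  | 0 => 0
  | n + 1 => cnt Xs j p n + if (Xs (p + n)).2 = some j then 1 else 0

theorem cnt_sum (Xs : ℕ → K × Option Bool) (p : ℕ) : ∀ n, (∀ x < n, (Xs (p + x)).2 ≠ none) →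
    cnt Xs true p n + cnt Xs false p n = n := by
  intro n
  induction n with
  | zero => intro _; rfl
  | succ n ih =>
    intro h
    have h1 := ih (fun x hx => h x (by omega))
    have h2 := h n (by omega)
    simp only [cnt]
    rcases hx : (Xs (p + n)).2 with _ | _ | _
    · exact absurd hx h2
    · simp; omega
    · simp; omega

/-- change of the weight per unit -/
def coef (κ : K) (j : Bool) : Bool → Bool → ℤ
  | true, false => -(m.a κ j)
  | true, true => m.B
  | false, false => m.a κ j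
  | false, true => -(m.B : ℤ)

section

variable (Xs : ℕ → K × Option Bool)

theorem path_cruise (b : ℕ) : m.blk.Path Xs b none 0 := by
  induction b with
  | zero => exact Blk.Path.start
  | succ b ih =>
    have := Blk.Path.step b none 0 0 0 none ih (m.blk.hm1 (Xs b))
    simpa using this

theorem path_unit (κ : K) (σ ph j : Bool) (p : ℕ) (w : ℤ)
    (h : m.blk.Path Xs p (some (σ, ph, j)) w) : ∀ n,
    (∀ x < n, (Xs (p + x)).2 ≠ none ∧ (Xs (p + x)).1 = κ) →
    m.blk.Path Xs (p + n) (some (σ, ph, j)) (w + m.coef κ j σ ph * cnt Xs j p n) := by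
  intro n
  induction n with
  | zero => intro _; simpa [cnt] using h
  | succ n ih =>
    intro hx
    have h1 := ih (fun x hx' => hx x (by omega))
    obtain ⟨h2, h3⟩ := hx n (by omega)
    have hdel : ∃ g l : ℕ, (g, l, (some (σ, ph, j) : St)) ∈ m.del (Xs (p + n)) (some (σ, ph, j)) ∧
        (g : ℤ) - l = m.coef κ j σ ph * (if (Xs (p + n)).2 = some j then 1 else 0 : ℕ) := by
      generalize Xs (p + n) = X at h2 h3
      obtain ⟨κ', _ | i⟩ := X
      · exact absurd rfl h2
      · simp only at h3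
        subst h3
        rcases σ with _ | _ <;> rcases ph with _ | _
        · refine ⟨if i = j then m.a κ' j else 0, 0, by simp [del], ?_⟩
          by_cases hij : i = j <;> simp [coef, hij]
        · refine ⟨0, if i = j then m.B else 0, by simp [del], ?_⟩
          by_cases hij : i = j <;> simp [coef, hij]
        · refine ⟨0, if i = j then m.a κ' j else 0, by simp [del], ?_⟩
          by_cases hij : i = j <;> simp [coef, hij]
        · refine ⟨if i = j then m.B else 0, 0, by simp [del], ?_⟩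
          by_cases hij : i = j <;> simp [coef, hij]
    obtain ⟨g, l, h4, h5⟩ := hdel
    have h6 := Blk.Path.step (M := m.blk) _ _ _ g l _ h1 h4
    have e : w + m.coef κ j σ ph * cnt Xs j p n + g - l =
        w + m.coef κ j σ ph * cnt Xs j p (n + 1) := by
      simp only [cnt]
      rw [add_sub_assoc, h5]
      push_cast
      ring
    rw [e] at h6
    exact h6

variable (hrho : ∀ b, m.blk.rho (Xs b) (Xs (b + 1)))
  (hneg : ∀ b q w, m.blk.Path Xs b q w → m.blk.ex (Xs b) q → w < 0)

include hrho in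
theorem unit_fst (p : ℕ) (κ : K) (hp : (Xs p).1 = κ) : ∀ n,
    (∀ x < n, (Xs (p + 1 + x)).2 ≠ none) → ∀ x, x ≤ n → (Xs (p + x)).1 = κ := by
  intro n hn x
  induction x with
  | zero => intro _; exact hp
  | succ x ih =>
    intro hx
    have h1 := ih (by omega)
    have h2 := hn x (by omega)
    have e : p + 1 + x = p + x + 1 := by ring
    rw [e] at h2
    rcases hrho (p + x) with ⟨h3, _, _⟩ | ⟨h3, _⟩
    · rw [← h1, ← h3]; rfl
    · exact absurd h3 h2

include hrho hneg in
theorem upper (p n n' : ℕ) (κ κ' : K) (hp : Xs p = (κ, none))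
    (hn : ∀ x < n, (Xs (p + 1 + x)).2 ≠ none) (hp' : Xs (p + 1 + n) = (κ', none))
    (hn' : ∀ x < n', (Xs (p + 1 + n + 1 + x)).2 ≠ none) (j : Bool) :
    m.r κ' j + m.B * cnt Xs j (p + 1 + n + 1) n' ≤ m.a κ j * cnt Xs j (p + 1) n + m.b κ j := by
  have f1 := m.unit_fst Xs hrho p κ (by rw [hp]) n hn
  have f2 := m.unit_fst Xs hrho (p + 1 + n) κ' (by rw [hp']) n' hn'
  have h0 := m.path_cruise Xs p
  have h1 : m.blk.Path Xs (p + 1) (some (true, false, j)) (0 + (0 : ℕ) - (m.b κ j + 1 : ℕ)) := by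
    refine Blk.Path.step p none 0 0 (m.b κ j + 1) _ h0 ?_
    change _ ∈ m.del (Xs p) none
    rw [hp]
    cases j <;> simp [del]
  have h2 := m.path_unit Xs κ true false j (p + 1) _ h1 n (fun x hx => ⟨hn x hx, by
    rw [show p + 1 + x = p + (x + 1) by ring]
    exact f1 (x + 1) (by omega)⟩)
  have h3 := Blk.Path.step (M := m.blk) (p + 1 + n) _ _ (m.r κ' j) 0 (some (true, true, j)) h2 (by
    change _ ∈ m.del (Xs (p + 1 + n)) _
    rw [hp']
    simp [del])
  have h4 := m.path_unit Xs κ' true true j (p + 1 + n + 1) _ h3 n' (fun x hx => ⟨hn' x hx, by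
    rw [show p + 1 + n + 1 + x = p + 1 + n + (x + 1) by ring]
    exact f2 (x + 1) (by omega)⟩)
  have h5 := hneg _ _ _ h4 (by
    change ex (Xs (p + 1 + n + 1 + n')) (some (true, true, j))
    simp [ex])
  simp only [coef] at h5
  zify
  push_cast at h5
  linarith

include hrho hneg in
theorem lower (p n n' : ℕ) (κ κ' : K) (hp : Xs p = (κ, none))
    (hn : ∀ x < n, (Xs (p + 1 + x)).2 ≠ none) (hp' : Xs (p + 1 + n) = (κ', none))
    (hn' : ∀ x < n', (Xs (p + 1 + n + 1 + x)).2 ≠ none)
    (hp'' : (Xs (p + 1 + n + 1 + n')).2 = none) (j : Bool) :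
    m.a κ j * cnt Xs j (p + 1) n + m.b κ j ≤ m.r κ' j + m.B * cnt Xs j (p + 1 + n + 1) n' := by
  have f1 := m.unit_fst Xs hrho p κ (by rw [hp]) n hn
  have f2 := m.unit_fst Xs hrho (p + 1 + n) κ' (by rw [hp']) n' hn'
  have h0 := m.path_cruise Xs p
  have h1 : m.blk.Path Xs (p + 1) (some (false, false, j)) (0 + (m.b κ j : ℕ) - (0 : ℕ)) := by
    refine Blk.Path.step p none 0 (m.b κ j) 0 _ h0 ?_
    change _ ∈ m.del (Xs p) none
    rw [hp]
    cases j <;> simp [del]
  have h2 := m.path_unit Xs κ false false j (p + 1) _ h1 n (fun x hx => ⟨hn x hx, by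
    rw [show p + 1 + x = p + (x + 1) by ring]
    exact f1 (x + 1) (by omega)⟩)
  have h3 := Blk.Path.step (M := m.blk) (p + 1 + n) _ _ 0 (m.r κ' j + 1)
    (some (false, true, j)) h2 (by
    change _ ∈ m.del (Xs (p + 1 + n)) _
    rw [hp']
    simp [del])
  have h4 := m.path_unit Xs κ' false true j (p + 1 + n + 1) _ h3 n' (fun x hx => ⟨hn' x hx, by
    rw [show p + 1 + n + 1 + x = p + 1 + n + (x + 1) by ring]
    exact f2 (x + 1) (by omega)⟩)
  have h5 := hneg _ _ _ h4 (by
    change ex (Xs (p + 1 + n + 1 + n')) (some (false, true, j))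
    generalize Xs (p + 1 + n + 1 + n') = X at hp''
    obtain ⟨κ'', i⟩ := X
    simp only at hp''
    subst hp''
    simp [ex])
  simp only [coef] at h5
  zify
  push_cast at h5
  linarith

include hrho hneg in
theorem run_of_bad (hX0 : Xs 0 = (m.ini, none)) : m.Run := by
  classical
  let nx : ℕ → ℕ := fun p => sInf {n | (Xs (p + 1 + n)).2 = none}
  let pos : ℕ → ℕ := fun i => Nat.rec 0 (fun _ p => p + 1 + nx p) i
  have pos0 : pos 0 = 0 := rfl
  have poss : ∀ i, pos (i + 1) = pos i + 1 + nx (pos i) := fun i => rfl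
  have hmin : ∀ p, ∀ x < nx p, (Xs (p + 1 + x)).2 ≠ none := fun p x hx h =>
    Nat.notMem_of_lt_sInf hx h
  have hnx : ∀ p, (∃ n, (Xs (p + 1 + n)).2 = none) → (Xs (p + 1 + nx p)).2 = none := fun p h =>
    Nat.sInf_mem (s := {n | (Xs (p + 1 + n)).2 = none}) h
  have hE : ∀ i, (Xs (pos i)).2 = none ∧ ∃ n, (Xs (pos i + 1 + n)).2 = none := by
    intro i
    induction i with
    | zero =>
      rw [pos0]
      refine ⟨by rw [hX0], 0, ?_⟩
      rcases hrho 0 with ⟨_, _, h⟩ | ⟨h, _⟩
      · rw [hX0] at h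
        exact absurd rfl h
      · exact h
    | succ i ih =>
      obtain ⟨ih1, ih2⟩ := ih
      have h1 := hnx _ ih2
      rw [← poss] at h1
      refine ⟨h1, ?_⟩
      by_contra hcon
      push Not at hcon
      have key := fun (n' : ℕ) (j : Bool) => m.upper Xs hrho hneg (pos i) (nx (pos i)) n'
        (Xs (pos i)).1 (Xs (pos (i + 1))).1 (Prod.ext rfl ih1) (hmin _)
        (Prod.ext rfl h1) (fun x _ => hcon x) j
      set T : Bool → ℕ := fun j => m.a (Xs (pos i)).1 j * cnt Xs j (pos i + 1) (nx (pos i)) +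
        m.b (Xs (pos i)).1 j with hT
      have k1 := key (T true + T false + 1) true
      have k2 := key (T true + T false + 1) false
      have k3 := cnt_sum Xs (pos i + 1 + nx (pos i) + 1) (T true + T false + 1)
        (fun x _ => hcon x)
      have hB := m.hB
      have k4 := Nat.le_mul_of_pos_left (cnt Xs true (pos i + 1 + nx (pos i) + 1)
        (T true + T false + 1)) hB
      have k5 := Nat.le_mul_of_pos_left (cnt Xs false (pos i + 1 + nx (pos i) + 1)
        (T true + T false + 1)) hB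
      have k6 : T true = m.a (Xs (pos i)).1 true * cnt Xs true (pos i + 1) (nx (pos i)) +
        m.b (Xs (pos i)).1 true := rfl
      have k7 : T false = m.a (Xs (pos i)).1 false * cnt Xs false (pos i + 1) (nx (pos i)) +
        m.b (Xs (pos i)).1 false := rfl
      omega
  refine ⟨fun i => (Xs (pos i)).1, fun i j => cnt Xs j (pos i + 1) (nx (pos i)), ?_, ?_, ?_, ?_⟩
  · simp only [pos0, hX0]
  · intro j
    have h1 : nx (pos 0) = 0 := by
      by_contra h
      have h2 := hmin (pos 0) 0 (by omega)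
      rw [pos0] at h2
      rcases hrho 0 with ⟨_, _, h⟩ | ⟨h, _⟩
      · rw [hX0] at h
        exact absurd rfl h
      · exact h2 h
    simp only [h1, cnt]
  · intro i
    have h1 := (hE (i + 1)).1
    have h2 := m.unit_fst Xs hrho (pos i) _ rfl (nx (pos i)) (hmin _) (nx (pos i)) le_rfl
    have e : pos (i + 1) = pos i + nx (pos i) + 1 := by rw [poss]; ring
    simp only [e]
    rw [e] at h1
    rcases hrho (pos i + nx (pos i)) with ⟨_, h3, _⟩ | ⟨_, h3⟩
    · exact absurd h1 h3
    · rw [h2] at h3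
      exact h3
  · intro i j
    have hi := hE i
    have hi1 := hE (i + 1)
    have hi2 := hnx _ hi1.2
    have hle := m.upper Xs hrho hneg (pos i) (nx (pos i)) (nx (pos (i + 1)))
        (Xs (pos i)).1 (Xs (pos (i + 1))).1 (Prod.ext rfl hi.1) (hmin _)
        (Prod.ext rfl hi1.1) (hmin _) j
    have hge := m.lower Xs hrho hneg (pos i) (nx (pos i)) (nx (pos (i + 1)))
        (Xs (pos i)).1 (Xs (pos (i + 1))).1 (Prod.ext rfl hi.1) (hmin _)
        (Prod.ext rfl hi1.1) (hmin _) hi2 j
    exact le_antisymm hle hge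

end

/-- Main equivalence at the level of machines, first half: no run gives a solution. -/
theorem solution {α : Type} (lt : (K × Option Bool) × ℕ → ℕ → α) (eta : α)
    (inj : ∀ c i d j, lt c i = lt d j → c = d ∧ i = j) (ne : ∀ c i, lt c i ≠ eta)
    (h : ¬ m.Run) : ∃ n0, {w | ∃ x, (m.blk.frm lt eta inj ne).X x ∧
        ∃ z, (∃ n, n0 ≤ n ∧ Fac (m.blk.frm lt eta inj ne).Y n z) ∧ w = x ++ z} =
      {w | ∃ z, (∃ n, n0 ≤ n ∧ Fac (m.blk.frm lt eta inj ne).Y n z) ∧
        ∃ y, (m.blk.frm lt eta inj ne).Y y ∧ w = z ++ y} := by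
  apply Frm.solution
  rintro ⟨s, h0, h1, h2⟩
  apply h
  obtain ⟨Xs, hX0, hX1, hX2⟩ := m.blk.exists_blocks s h0 h1
  refine m.run_of_bad Xs hX1 ?_ hX0
  intro b q w hp he
  exact m.blk.path_neg lt eta inj ne Xs s h0 hX2 h2 b q w hp he

/-- second half: a run excludes every nonempty solution -/
theorem no_solution {α : Type} (lt : (K × Option Bool) × ℕ → ℕ → α) (eta : α)
    (inj : ∀ c i d j, lt c i = lt d j → c = d ∧ i = j) (ne : ∀ c i, lt c i ≠ eta)
    (h : m.Run) (Z : Set (List α)) (hne : Z.Nonempty)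
    (hZ : ∀ x, (m.blk.frm lt eta inj ne).X x → ∀ z ∈ Z,
      ∃ z' ∈ Z, ∃ y, (m.blk.frm lt eta inj ne).Y y ∧ x ++ z = z' ++ y) : False := by
  obtain ⟨s, h0, h1, h2⟩ := m.bad_of_run lt eta inj ne h
  exact Frm.no_solution _ s h1 h2 Z hne hZ

end Mach

end Pool.Agent.Helper948.Conj
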