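import Pool.Agent.Helper948.Conj.Frame

set_option autoImplicit false

/-! Second half of the frame: an infinite bad sequence excludes every nonempty solution. -/

namespace Pool.Agent.Helper948.Conj

namespace Frm

variable {α C : Type} (F : Frm α C)

theorem Y_ne (y : List α) (h : F.Y y) : y ≠ [] := by
  cases h with
  | eta => simp
  | tok d _ => rw [T_cons]; simp
  | base _ hy =>
    obtain ⟨_, _, _, _, _, h⟩ := F.hb y hy
    rw [h]; simp
  | f1 => simp
  | f2 => simp
  | h0 b u => rw [p_cons]; simp
  | h1 b e u => rw [p_cons]; simp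

theorem Y_eta (l : List α) (h : F.Y (F.eta :: l)) : l = [] := by
  generalize hw : F.eta :: l = w at h
  cases h with
  | eta => simpa using hw
  | tok d _ =>
    rw [T_cons] at hw
    exact absurd (List.cons.inj hw).1.symm (F.ne _ _)
  | base _ hy =>
    obtain ⟨_, _, _, _, _, h⟩ := F.hb _ hy
    rw [h] at hw
    exact absurd (List.cons.inj hw).1.symm (F.ne _ _)
  | f1 e u => exact absurd (List.cons.inj hw).1.symm (F.ne _ _)
  | f2 e f u => exact absurd (List.cons.inj hw).1.symm (F.ne _ _)
  | h0 b u =>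
    rw [p_cons, List.cons_append] at hw
    exact absurd (List.cons.inj hw).1.symm (F.ne _ _)
  | h1 b e u =>
    rw [p_cons, List.cons_append] at hw
    exact absurd (List.cons.inj hw).1.symm (F.ne _ _)

theorem Y_tok (d : C) (l : List α) (h : F.Y (F.lt d 0 :: l)) : F.lt d 0 :: l = F.T d := by
  have hoL := F.hoL
  have ho := F.ho
  generalize hw : F.lt d 0 :: l = w at h
  cases h with
  | eta => exact absurd (List.cons.inj hw).1 (F.ne _ _)
  | tok e _ =>
    rw [T_cons] at hw
    have := (F.inj _ _ _ _ (List.cons.inj hw).1).1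
    rw [this, T_cons]
  | base _ hy =>
    obtain ⟨_, _, _, h1, _, h⟩ := F.hb _ hy
    rw [h] at hw
    have := (F.inj _ _ _ _ (List.cons.inj hw).1).2
    omega
  | f1 e u =>
    have := (F.inj _ _ _ _ (List.cons.inj hw).1).2
    omega
  | f2 e f u =>
    have := (F.inj _ _ _ _ (List.cons.inj hw).1).2
    omega
  | h0 b u =>
    rw [p_cons, List.cons_append] at hw
    have := (F.inj _ _ _ _ (List.cons.inj hw).1).2
    omega
  | h1 b e u =>
    rw [p_cons, List.cons_append] at hw
    have := (F.inj _ _ _ _ (List.cons.inj hw).1).2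
    omega

theorem fac_eta {n : ℕ} {w : List α} (h : Fac F.Y n (F.eta :: w)) :
    ∃ n', n = n' + 1 ∧ Fac F.Y n' w := by
  generalize hv : F.eta :: w = v at h
  cases h with
  | nil => simp at hv
  | @cons y w' n hy h =>
    cases y with
    | nil => exact absurd rfl (F.Y_ne _ hy)
    | cons a y =>
      rw [List.cons_append] at hv
      obtain ⟨h1, h2⟩ := List.cons.inj hv
      subst h1
      have := F.Y_eta _ hy
      subst this
      subst h2
      exact ⟨n, rfl, h⟩

theorem fac_tok {n : ℕ} {d : C} {w : List α} (h : Fac F.Y n (F.T d ++ w)) :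
    ∃ n', n = n' + 1 ∧ Fac F.Y n' w := by
  generalize hv : F.T d ++ w = v at h
  cases h with
  | nil => rw [T_cons] at hv; simp at hv
  | @cons y w' n hy h =>
    cases y with
    | nil => exact absurd rfl (F.Y_ne _ hy)
    | cons a y =>
      have hv' := hv
      rw [T_cons, List.cons_append, List.cons_append] at hv'
      obtain ⟨h1, h2⟩ := List.cons.inj hv'
      subst h1
      rw [F.Y_tok _ _ hy] at hv
      have := List.append_cancel_left hv
      subst this
      exact ⟨n, rfl, h⟩

theorem fac_eta_pow {w : List α} (k : ℕ) : ∀ {n : ℕ}, Fac F.Y n (List.replicate k F.eta ++ w) →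
    ∃ n', n = n' + k ∧ Fac F.Y n' w := by
  induction k with
  | zero => intro n h; exact ⟨n, rfl, by simpa using h⟩
  | succ k ih =>
    intro n h
    rw [List.replicate_succ, List.cons_append] at h
    obtain ⟨n1, rfl, h1⟩ := F.fac_eta h
    obtain ⟨n2, rfl, h2⟩ := ih h1
    exact ⟨n2, by omega, h2⟩

theorem fac_Tl {w : List α} (l : List C) : ∀ {n : ℕ}, Fac F.Y n (F.Tl l ++ w) →
    ∃ n', n = n' + l.length ∧ Fac F.Y n' w := by
  induction l with
  | nil => intro n h; exact ⟨n, rfl, by simpa [Tl] using h⟩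
  | cons d l ih =>
    intro n h
    have e : F.Tl (d :: l) ++ w = F.T d ++ (F.Tl l ++ w) := by simp [Tl]
    rw [e] at h
    obtain ⟨n1, rfl, h1⟩ := F.fac_tok h
    obtain ⟨n2, rfl, h2⟩ := ih h1
    exact ⟨n2, by simp; omega, h2⟩

theorem fac_prefix {a : ℕ} {z : List α} (h : Fac F.Y a z) : ∀ (l : List C), z <+: F.Tl l →
    z = F.Tl (l.take a) ∧ a ≤ l.length := by
  induction h with
  | nil => intro l _; simp [Tl]
  | @cons y w n hy h ih =>
    intro l hl
    obtain ⟨r, hr⟩ := hl
    cases y with
    | nil => exact absurd rfl (F.Y_ne _ hy)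
    | cons a y =>
      cases l with
      | nil => simp [Tl] at hr
      | cons d l =>
        have e : F.Tl (d :: l) = F.T d ++ F.Tl l := by simp [Tl]
        rw [e] at hr
        have hr' := hr
        rw [T_cons, List.cons_append, List.cons_append, List.cons_append] at hr'
        obtain ⟨h1, h2⟩ := List.cons.inj hr'
        subst h1
        rw [F.Y_tok _ _ hy, List.append_assoc] at hr
        have := List.append_cancel_left hr
        obtain ⟨h3, h4⟩ := ih l ⟨r, this⟩
        rw [F.Y_tok _ _ hy]
        refine ⟨?_, by simp; omega⟩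
        rw [List.take_succ_cons]
        have e : F.Tl (d :: l.take n) = F.T d ++ F.Tl (l.take n) := by simp [Tl]
        rw [e, ← h3]

theorem push {Z : Set (List α)}
    (hZ : ∀ x, F.X x → ∀ z ∈ Z, ∃ z' ∈ Z, ∃ y, F.Y y ∧ x ++ z = z' ++ y) {n : ℕ} {w : List α}
    (h : Fac F.X n w) {z : List α} (hz : z ∈ Z) :
    ∃ z' ∈ Z, ∃ u, Fac F.Y n u ∧ w ++ z = z' ++ u := by
  induction h with
  | nil => exact ⟨z, hz, [], Fac.nil, by simp⟩
  | @cons x w n hx _ ih =>
    obtain ⟨z1, h1, u, h2, h3⟩ := ih
    obtain ⟨z2, h4, y, h5, h6⟩ := hZ x hx z1 h1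
    refine ⟨z2, h4, y ++ u, Fac.cons h5 h2, ?_⟩
    rw [List.append_assoc, h3, ← List.append_assoc, h6, List.append_assoc]

/-- pushing powers of the fresh letter -/
theorem push_eta {Z : Set (List α)}
    (hZ : ∀ x, F.X x → ∀ z ∈ Z, ∃ z' ∈ Z, ∃ y, F.Y y ∧ x ++ z = z' ++ y) {n : ℕ} {w : List α}
    (h : Fac F.X n w) {z : List α} (hz : z ∈ Z) :
    ∃ a v, List.replicate a F.eta ∈ Z ∧ w ++ z = v ∧ ∃ m, m = a + n ∧ Fac F.Y m v := by
  have hX : ∀ k, Fac F.X k (List.replicate k F.eta) := by
    intro k
    induction k with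
    | zero => exact Fac.nil
    | succ k ih =>
      rw [List.replicate_succ]
      exact Fac.cons (y := [F.eta]) (Or.inl Y.eta) ih
  have h1 := (hX (w ++ z).length).append h
  obtain ⟨z', hz', u, hu, he⟩ := F.push hZ h1 hz
  have hlen := Fac.length_le F.Y_ne hu
  have hl2 := congrArg List.length he
  simp only [List.length_append, List.length_replicate] at hl2 hlen
  have hpre : z' <+: List.replicate (w ++ z).length F.eta := by
    have e1 : z' <+: List.replicate (w ++ z).length F.eta ++ (w ++ z) := by
      rw [← List.append_assoc, he]; exact List.prefix_append _ _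
    refine List.prefix_of_prefix_length_le e1 (List.prefix_append _ _) ?_
    rw [List.length_replicate, List.length_append]
    omega
  obtain ⟨r, hr⟩ := hpre
  have h3 := hr
  rw [List.append_eq_replicate_iff] at h3
  obtain ⟨h3, h4, h5⟩ := h3
  refine ⟨z'.length, w ++ z, ?_, rfl, z'.length + n, rfl, ?_⟩
  · rw [← h4]; exact hz'
  · have e2 : u = List.replicate r.length F.eta ++ (w ++ z) := by
      rw [List.append_assoc, ← hr, List.append_assoc] at he
      have := List.append_cancel_left he
      rw [← h5]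
      exact this.symm
    rw [e2] at hu
    obtain ⟨n', hn1, hn2⟩ := F.fac_eta_pow _ hu
    have : n' = z'.length + n := by omega
    rw [← this]
    exact hn2

/-- second half: an infinite bad sequence excludes every nonempty solution -/
theorem no_solution (s : ℕ → C) (hc : ∀ i, F.R (s i) (s (i + 1)))
    (hbad : ∀ m, ¬ F.Good ((List.range m).map fun i => s (i + 1)))
    (Z : Set (List α)) (hne : Z.Nonempty)
    (hZ : ∀ x, F.X x → ∀ z ∈ Z, ∃ z' ∈ Z, ∃ y, F.Y y ∧ x ++ z = z' ++ y) : False := by
  classical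
  obtain ⟨z0, hz0, hmin⟩ : ∃ z0 ∈ Z, ∀ z ∈ Z, z0.length ≤ z.length := by
    have hex : ∃ n, ∃ z ∈ Z, z.length = n := by
      obtain ⟨z, hz⟩ := hne
      exact ⟨z.length, z, hz, rfl⟩
    obtain ⟨z0, h1, h2⟩ := Nat.find_spec hex
    exact ⟨z0, h1, fun z hz => by
      rw [h2]; exact Nat.find_min' hex ⟨z, hz, rfl⟩⟩
  set N := z0.length + 1 with hN
  set ls : List C := (List.range N).map fun i => s (i + 1) with hls
  have hlsl : ls.length = N := by simp [hls]
  have hTX : Fac F.X N (F.Tl ls) := by
    have : Fac F.X (ls.map F.T).length (ls.map F.T).flatten := by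
      apply Fac.flatten
      intro y hy
      rw [List.mem_map] at hy
      obtain ⟨c, hc1, rfl⟩ := hy
      rw [hls, List.mem_map] at hc1
      obtain ⟨i, _, rfl⟩ := hc1
      exact Or.inl (Y.tok _ (F.hR _ _ (hc i)))
    rw [List.length_map, hlsl] at this
    exact this
  have h1 := hTX.append (Fac.one (Y := F.X) (y := [F.eta]) (Or.inl Y.eta))
  obtain ⟨z1, hz1, u, hu, he⟩ := F.push hZ h1 hz0
  have hlen := Fac.length_le F.Y_ne hu
  have hl2 := congrArg List.length he
  simp only [List.length_append, List.length_singleton] at hl2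
  have hpre : z1 <+: F.Tl ls := by
    have e1 : z1 <+: F.Tl ls ++ ([F.eta] ++ z0) := by
      rw [← List.append_assoc, he]; exact List.prefix_append _ _
    exact List.prefix_of_prefix_length_le e1 (List.prefix_append _ _) (by omega)
  obtain ⟨a, v, ha1, hv, m, hm, hf⟩ := F.push_eta hZ Fac.nil hz1
  rw [List.nil_append] at hv
  subst hv
  rw [add_zero] at hm
  subst hm
  obtain ⟨h2, h3⟩ := F.fac_prefix hf ls hpre
  have ha2 := hmin _ ha1
  rw [List.length_replicate] at ha2
  have ha3 : m ≤ z0.length := by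
    have e2 : F.Tl ls = F.Tl (ls.take m) ++ F.Tl (ls.drop m) := by
      unfold Tl
      rw [← List.flatten_append, ← List.map_append, List.take_append_drop]
    rw [e2, List.append_assoc, List.append_assoc, h2] at he
    have h4 := List.append_cancel_left he
    rw [← h4] at hu
    obtain ⟨n1, hn1, h5⟩ := F.fac_Tl _ hu
    obtain ⟨n2, hn2, h6⟩ := F.fac_eta (w := z0) h5
    have h7 := Fac.length_le F.Y_ne h6
    rw [List.length_drop, hlsl] at hn1
    rw [hlsl] at h3
    omega
  obtain ⟨a', v', hb1, hv', m', hm', hf'⟩ := F.push_eta hZ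
    (Fac.one (Y := F.X) (y := F.eta :: F.p F.star) (Or.inr rfl)) hz1
  subst hv'
  subst hm'
  obtain ⟨n3, hn3, h8⟩ := F.fac_eta (w := F.p F.star ++ z1) hf'
  have hb2 := hmin _ hb1
  rw [List.length_replicate] at hb2
  refine hbad m ⟨n3, by simp; omega, ?_⟩
  have e3 : (List.range m).map (fun i => s (i + 1)) = ls.take m := by
    rw [hlsl] at h3
    rw [hls, ← List.map_take, List.take_range, min_eq_left h3]
  rw [e3, ← h2]
  exact h8

end Frm

end Pool.Agent.Helper948.Conj
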