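import Pool.Agent.Helper948.Conj.Blk

set_option autoImplicit false

/-! Block paths give factorizations; the block level equivalence. -/

namespace Pool.Agent.Helper948.Conj

namespace Blk

variable {K S : Type} (M : Blk K S)

/-- paths of the block automaton on the sequence `Xs` -/
inductive Path (Xs : ℕ → K) : ℕ → S → ℤ → Prop
  | start : Path Xs 0 M.m1 0
  | step (b : ℕ) (q : S) (w : ℤ) (g l : ℕ) (q' : S) : Path Xs b q w →
      (g, l, q') ∈ M.del (Xs b) q → Path Xs (b + 1) q' (w + g - l)

variable {α : Type} (lt : K × ℕ → ℕ → α) (eta : α)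
  (inj : ∀ c i d j, lt c i = lt d j → c = d ∧ i = j) (ne : ∀ c i, lt c i ≠ eta)

/-- a legal sequence of cells comes from a sequence of blocks -/
theorem exists_blocks (s : ℕ → K × ℕ) (h0 : s 0 = (M.ini, 0))
    (hs : ∀ i, M.R (s i) (s (i + 1))) :
    ∃ Xs : ℕ → K, Xs 0 = M.ini ∧ (∀ b, M.rho (Xs b) (Xs (b + 1))) ∧
      ∀ b x, x < M.W → s (b * M.W + x) = (Xs b, x) := by
  have key : ∀ b, (s (b * M.W)).2 = 0 → ∀ x, x < M.W →
      s (b * M.W + x) = ((s (b * M.W)).1, x) := by
    intro b hb x
    induction x with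
    | zero => intro _; rw [add_zero, ← hb]
    | succ x ih =>
      intro hx
      have h1 := ih (by omega)
      have h2 := hs (b * M.W + x)
      rw [h1] at h2
      obtain ⟨_, ⟨h3, h4⟩ | ⟨h3, _⟩⟩ := h2
      · rw [← add_assoc]
        exact Prod.ext h3.symm h4
      · simp only at h3
        omega
  have key2 : ∀ b, (s (b * M.W)).2 = 0 → (s ((b + 1) * M.W)).2 = 0 ∧
      M.rho (s (b * M.W)).1 (s ((b + 1) * M.W)).1 := by
    intro b hb
    have h1 := key b hb (M.W - 1) (by have := M.Wpos; omega)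
    have h2 := hs (b * M.W + (M.W - 1))
    have e : b * M.W + (M.W - 1) + 1 = (b + 1) * M.W := by
      have := M.Wpos
      rw [add_mul, one_mul]; omega
    rw [e, h1] at h2
    obtain ⟨h5, ⟨h3, h4⟩ | ⟨h3, h4, h6⟩⟩ := h2
    · simp only at h4
      have := M.Wpos
      omega
    · exact ⟨h4, h6⟩
  have hz : ∀ b, (s (b * M.W)).2 = 0 := by
    intro b
    induction b with
    | zero => rw [zero_mul, h0]
    | succ b ih => exact (key2 b ih).1
  refine ⟨fun b => (s (b * M.W)).1, ?_, fun b => (key2 b (hz b)).2, fun b x hx => key b (hz b) x hx⟩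
  simp only [zero_mul, h0]

theorem step_fac (Xs : ℕ → K) (s : ℕ → K × ℕ)
    (hs : ∀ b x, x < M.W → s (b * M.W + x) = (Xs b, x)) (b : ℕ) (q : S) (g l : ℕ) (q' : S)
    (h : (g, l, q') ∈ M.del (Xs b) q) :
    Fac (M.frm lt eta inj ne).Y (M.W + g - l)
      ((M.frm lt eta inj ne).txt s (b * M.W * M.L + M.tq q) (M.W * M.L + M.tq q' - M.tq q)) := by
  set F := M.frm lt eta inj ne with hF
  obtain ⟨hg, hl⟩ := M.hG _ _ _ _ _ h
  have hL1 := M.tq_lt q g hg
  have hL2 := M.tq_lt q' 0 (Nat.zero_le _)
  have hW : M.W = M.G + 2 := rfl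
  have hL0 : 0 < M.L := by omega
  have hsb : s (b * M.W) = (Xs b, 0) := by
    have := hs b 0 M.Wpos
    rwa [add_zero] at this
  have hdm : ∀ i t, t < M.L → (i * M.L + t) / M.L = i ∧ (i * M.L + t) % M.L = t := by
    intro i t ht
    constructor
    · rw [show i * M.L + t = t + M.L * i by ring, Nat.add_mul_div_left _ _ hL0,
        Nat.div_eq_of_lt ht, zero_add]
    · rw [show i * M.L + t = t + M.L * i by ring, Nat.add_mul_mod_self_left,
        Nat.mod_eq_of_lt ht]
  -- inside tokens
  have f1 : ∀ g', g' ≤ g → Fac F.Y g' (F.txt s (b * M.W * M.L + M.tq q) g') := by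
    intro g'
    induction g' with
    | zero => intro _; exact Fac.nil
    | succ g' ih =>
      intro hg'
      rw [F.txt_add]
      refine (ih (by omega)).append (Fac.one ?_)
      have e : F.txt s (b * M.W * M.L + M.tq q + g') 1 = [lt (Xs b, 0) (M.tq q + g')] := by
        rw [F.txt_succ s _ 0]
        change [lt (s (_ / M.L)) (_ % M.L)] = _
        rw [add_assoc, (hdm _ _ (by omega)).1, (hdm _ _ (by omega)).2, hsb]
      rw [e]
      exact Frm.Y.base _ (Base.inside (Xs b) q g l q' g' h (by omega))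
  -- jump token
  have f2 : Fac F.Y 1 (F.txt s (b * M.W * M.L + M.tq q + g)
      ((l + 1) * M.L + M.tq q' - (M.tq q + g))) := by
    have e : F.txt s (b * M.W * M.L + M.tq q + g)
        ((l + 1) * M.L + M.tq q' - (M.tq q + g)) =
        wt lt M.L (fun x => (Xs b, x)) (M.tq q + g)
          ((l + 1) * M.L + M.tq q' - (M.tq q + g)) := by
      unfold Frm.txt wt
      apply List.ext_getElem
      · simp
      · intro n h1 h2
        simp only [List.length_map, List.length_range'] at h1
        simp only [List.getElem_map, List.getElem_range', one_mul]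
        change lt (s (_ / M.L)) (_ % M.L) = _
        have e1 : b * M.W * M.L + M.tq q + g + n =
            (b * M.W + (M.tq q + g + n) / M.L) * M.L + (M.tq q + g + n) % M.L := by
          have := Nat.div_add_mod (M.tq q + g + n) M.L
          have e2 : (b * M.W + (M.tq q + g + n) / M.L) * M.L =
              b * M.W * M.L + M.L * ((M.tq q + g + n) / M.L) := by ring
          omega
        rw [e1, (hdm _ _ (Nat.mod_lt _ hL0)).1, (hdm _ _ (Nat.mod_lt _ hL0)).2]
        have h3 : (M.tq q + g + n) / M.L < M.W := by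
          rw [Nat.div_lt_iff_lt_mul hL0]
          have h4 : (l + 2) * M.L ≤ M.W * M.L := Nat.mul_le_mul_right _ (by omega)
          have e3 : (l + 2) * M.L = (l + 1) * M.L + M.L := by ring
          omega
        rw [hs b _ h3]
    rw [e]
    exact Fac.one (Frm.Y.base _ (Base.jump (Xs b) q g l q' h))
  -- cruise tokens
  have f3 : ∀ k x, 1 ≤ x → x + k ≤ M.W →
      Fac F.Y k (F.txt s ((b * M.W + x) * M.L + M.tq q') (k * M.L)) := by
    intro k
    induction k with
    | zero => intro x _ _; rw [zero_mul]; exact Fac.nil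
    | succ k ih =>
      intro x hx hk
      rw [show (k + 1) * M.L = M.L + k * M.L by ring, F.txt_add, add_comm k]
      refine (Fac.one ?_).append ?_
      · have e := wt_two lt M.L s (b * M.W + x) (M.tq q') (M.tq q') (by omega) (by omega)
        rw [show M.L + M.tq q' - M.tq q' = M.L by omega] at e
        have e2 : F.txt s ((b * M.W + x) * M.L + M.tq q') M.L =
          wt lt M.L s ((b * M.W + x) * M.L + M.tq q') M.L := rfl
        rw [e2, e, hs b x (by omega)]
        refine Frm.Y.base _ (Base.cruise (Xs b) x _ q' hx (by omega) ?_)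
        rw [M.mem_cells]
        by_cases hx1 : x + 1 < M.W
        · rw [add_assoc, hs b _ hx1]; exact hx1
        · have e3 : b * M.W + x + 1 = (b + 1) * M.W + 0 := by
            rw [add_mul, one_mul]; omega
          rw [e3, hs (b + 1) 0 M.Wpos]
          exact M.Wpos
      · have := ih (x + 1) (by omega) (by omega)
        have e3 : (b * M.W + x) * M.L + M.tq q' + M.L = (b * M.W + (x + 1)) * M.L + M.tq q' := by
          ring
        rw [e3]
        exact this
  have hll : M.L ≤ (l + 1) * M.L := by rw [add_mul]; omega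
  have e1 : M.W * M.L + M.tq q' - M.tq q = g + ((l + 1) * M.L + M.tq q' - (M.tq q + g)) +
      (M.W - (l + 1)) * M.L := by
    have h4 : (l + 1) * M.L ≤ M.W * M.L := Nat.mul_le_mul_right _ (by omega)
    rw [Nat.sub_mul]
    omega
  have e2 : M.W + g - l = g + 1 + (M.W - (l + 1)) := by omega
  rw [e1, e2, F.txt_add, F.txt_add]
  refine ((f1 g le_rfl).append f2).append ?_
  have e4 : b * M.W * M.L + M.tq q + (g + ((l + 1) * M.L + M.tq q' - (M.tq q + g))) =
      (b * M.W + (l + 1)) * M.L + M.tq q' := by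
    rw [add_mul (b * M.W) (l + 1)]
    omega
  rw [e4]
  exact f3 _ (l + 1) (by omega) (by omega)

theorem path_fac (Xs : ℕ → K) (s : ℕ → K × ℕ)
    (hs : ∀ b x, x < M.W → s (b * M.W + x) = (Xs b, x)) (b : ℕ) (q : S) (w : ℤ)
    (h : M.Path Xs b q w) : M.tq M.m1 ≤ b * M.W * M.L + M.tq q ∧
    ∃ n : ℕ, (n : ℤ) = b * M.W + w ∧ Fac (M.frm lt eta inj ne).Y n
      ((M.frm lt eta inj ne).txt s (M.tq M.m1) (b * M.W * M.L + M.tq q - M.tq M.m1)) := by
  induction h with
  | start =>
    refine ⟨by simp, 0, by simp, ?_⟩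
    rw [zero_mul, zero_mul, zero_add, Nat.sub_self]
    exact Fac.nil
  | step b q w g l q' h1 h2 ih =>
    obtain ⟨ih1, n, hn, ih2⟩ := ih
    obtain ⟨hg, hl⟩ := M.hG _ _ _ _ _ h2
    have hW : M.W = M.G + 2 := rfl
    have hL1 := M.tq_lt q 0 (Nat.zero_le _)
    have hL3 : M.L ≤ M.W * M.L := Nat.le_mul_of_pos_left _ M.Wpos
    have e0 : (b + 1) * M.W * M.L = b * M.W * M.L + M.W * M.L := by ring
    refine ⟨by rw [e0]; omega, n + (M.W + g - l), ?_, ?_⟩
    · rw [Nat.cast_add, Nat.cast_sub (by omega)]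
      push_cast
      linarith
    · have := M.step_fac lt eta inj ne Xs s hs b q g l q' h2
      have e1 : (b + 1) * M.W * M.L + M.tq q' - M.tq M.m1 =
          (b * M.W * M.L + M.tq q - M.tq M.m1) + (M.W * M.L + M.tq q' - M.tq q) := by
        rw [e0]; omega
      rw [e1, Frm.txt_add]
      refine ih2.append ?_
      rw [show M.tq M.m1 + (b * M.W * M.L + M.tq q - M.tq M.m1) = b * M.W * M.L + M.tq q by omega]
      exact this

/-- on a bad sequence all paths reaching an exit have negative weight -/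
theorem path_neg (Xs : ℕ → K) (s : ℕ → K × ℕ) (h0 : s 0 = (M.ini, 0))
    (hs : ∀ b x, x < M.W → s (b * M.W + x) = (Xs b, x))
    (hbad : ∀ m, ¬ (M.frm lt eta inj ne).Good ((List.range m).map fun i => s (i + 1)))
    (b : ℕ) (q : S) (w : ℤ) (h : M.Path Xs b q w) (he : M.ex (Xs b) q) : w < 0 := by
  by_contra hw
  push Not at hw
  set F := M.frm lt eta inj ne with hF
  obtain ⟨h1, n, hn, h2⟩ := M.path_fac lt eta inj ne Xs s hs b q w h
  have hW : M.W = M.G + 2 := rfl
  have hL1 := M.tq_lt q 0 (Nat.zero_le _)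
  have hL0 : 0 < M.L := by omega
  refine hbad (b * M.W + 1) ⟨n + 1, ?_, ?_⟩
  · simp only [List.length_map, List.length_range]
    zify
    omega
  · rw [F.txt_good s h0]
    change Fac F.Y (n + 1) (F.txt s (M.tq M.m1) ((b * M.W + 1 + 1) * M.L - M.tq M.m1))
    have e1 : (b * M.W + 1 + 1) * M.L - M.tq M.m1 =
        (b * M.W * M.L + M.tq q - M.tq M.m1) + (2 * M.L - M.tq q) := by
      have : (b * M.W + 1 + 1) * M.L = b * M.W * M.L + 2 * M.L := by ring
      omega
    rw [e1, F.txt_add]
    refine h2.append (Fac.one ?_)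
    rw [show M.tq M.m1 + (b * M.W * M.L + M.tq q - M.tq M.m1) = b * M.W * M.L + M.tq q by omega]
    have e2 : F.txt s (b * M.W * M.L + M.tq q) (2 * M.L - M.tq q) =
        wt lt M.L (fun x => (Xs b, x)) (M.tq q) (2 * M.L - M.tq q) := by
      have e3 := wt_two lt M.L s (b * M.W) (M.tq q) M.L (by omega) le_rfl
      have e4 := wt_two lt M.L (fun x => (Xs b, x)) 0 (M.tq q) M.L (by omega) le_rfl
      rw [show M.L + M.L - M.tq q = 2 * M.L - M.tq q by omega] at e3 e4
      rw [zero_mul, zero_add] at e4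
      rw [e4]
      have e5 : F.txt s (b * M.W * M.L + M.tq q) (2 * M.L - M.tq q) =
        wt lt M.L s (b * M.W * M.L + M.tq q) (2 * M.L - M.tq q) := rfl
      rw [e5, e3]
      have e6 := hs b 0 M.Wpos
      rw [add_zero] at e6
      rw [e6, hs b 1 (by omega)]
    rw [e2]
    exact Frm.Y.base _ (Base.exit (Xs b) q he)

end Blk

end Pool.Agent.Helper948.Conj
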