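import Pool.Agent.Helper948.Conj.NoSol

set_option autoImplicit false

/-! Texts of infinite sequences of cells and the potential argument. -/

namespace Pool.Agent.Helper948.Conj

namespace Frm

variable {α C : Type} (F : Frm α C)

theorem Lpos : 0 < F.L := by
  have := F.hoL
  omega

/-- the letters `P, …, P + n - 1` of the text of the sequence -/
def txt (s : ℕ → C) (P n : ℕ) : List α :=
  (List.range' P n).map fun x => F.lt (s (x / F.L)) (x % F.L)

theorem txt_length (s : ℕ → C) (P n : ℕ) : (F.txt s P n).length = n := by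
  simp [txt]

theorem txt_add (s : ℕ → C) (P a b : ℕ) : F.txt s P (a + b) = F.txt s P a ++ F.txt s (P + a) b := by
  unfold txt
  rw [← List.map_append, List.range'_append_1]

theorem txt_succ (s : ℕ → C) (P n : ℕ) : F.txt s P (n + 1) =
    F.lt (s (P / F.L)) (P % F.L) :: F.txt s (P + 1) n := by
  unfold txt
  rw [List.range'_succ]
  rfl

theorem txt_seg (s : ℕ → C) (i t t' : ℕ) (h' : t' ≤ F.L) :
    F.txt s (i * F.L + t) (t' - t) = seg F.lt (s i) t t' := by
  unfold txt seg
  apply List.ext_getElem
  · simp
  · intro n h1 h2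
    simp only [List.length_map, List.length_range'] at h1
    simp only [List.getElem_map, List.getElem_range', one_mul]
    have h3 : t + n < F.L := by omega
    have e1 : (i * F.L + t + n) / F.L = i := by
      rw [show i * F.L + t + n = t + n + F.L * i by ring, Nat.add_mul_div_left _ _ F.Lpos,
        Nat.div_eq_of_lt h3, zero_add]
    have e2 : (i * F.L + t + n) % F.L = t + n := by
      rw [show i * F.L + t + n = t + n + F.L * i by ring, Nat.add_mul_mod_self_left,
        Nat.mod_eq_of_lt h3]
    rw [e1, e2]

theorem txt_T (s : ℕ → C) (i : ℕ) : F.txt s (i * F.L) F.L = F.T (s i) := by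
  have := F.txt_seg s i 0 F.L le_rfl
  unfold T
  simpa using this

theorem txt_Tl (s : ℕ → C) (k : ℕ) : ∀ i, F.txt s (i * F.L) (k * F.L) =
    F.Tl ((List.range' i k).map s) := by
  induction k with
  | zero => intro i; simp [txt, Tl]
  | succ k ih =>
    intro i
    have e1 : (k + 1) * F.L = F.L + k * F.L := by ring
    have e2 : i * F.L + F.L = (i + 1) * F.L := by ring
    rw [e1, txt_add, txt_T, e2, ih, List.range'_succ]
    simp [Tl]

theorem txt_good (s : ℕ → C) (h0 : s 0 = F.star) (m : ℕ) :
    F.p F.star ++ F.Tl ((List.range m).map fun i => s (i + 1)) =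
      F.txt s F.o ((m + 1) * F.L - F.o) := by
  have hoL := F.hoL
  have e1 : (m + 1) * F.L - F.o = (F.L - F.o) + m * F.L := by
    rw [Nat.add_mul, one_mul]
    omega
  rw [e1, txt_add]
  have e2 : F.o + (F.L - F.o) = 1 * F.L := by omega
  rw [e2, txt_Tl]
  have e3 := F.txt_seg s 0 F.o F.L le_rfl
  rw [zero_mul, zero_add, h0] at e3
  rw [e3]
  congr 2
  rw [List.range'_eq_map_range, List.map_map]
  apply List.map_congr_left
  intro i _
  simp [add_comm]

theorem fac_nil {n : ℕ} (h : Fac F.Y n []) : n = 0 := by
  have := Fac.length_le F.Y_ne h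
  simpa using this

theorem fac_aligned (s : ℕ → C) (i k n : ℕ) (h : Fac F.Y n (F.txt s (i * F.L) (k * F.L))) :
    n = k := by
  rw [txt_Tl] at h
  rw [← List.append_nil (F.Tl _)] at h
  obtain ⟨n', h1, h2⟩ := F.fac_Tl _ h
  have := F.fac_nil h2
  simp at h1
  omega

theorem txt_split (s : ℕ → C) (P n : ℕ) (y w : List α) (h : y ++ w = F.txt s P n) :
    y.length ≤ n ∧ y = F.txt s P y.length ∧ w = F.txt s (P + y.length) (n - y.length) := by
  have hl := congrArg List.length h
  rw [List.length_append, txt_length] at hl
  have h1 : n = y.length + (n - y.length) := by omega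
  rw [h1, txt_add] at h
  have h2 := List.append_inj h (by rw [txt_length])
  exact ⟨by omega, h2.1, h2.2⟩

theorem potential (s : ℕ → C) (hc : ∀ i, F.R (s i) (s (i + 1)))
    (Val : ℕ → ℤ → Prop)
    (hv : ∀ P φ, Val P φ → 1 ≤ P % F.L ∧ P % F.L + 1 < F.L)
    (hs : ∀ P φ y l, Val P φ → F.base y → y = F.lt (s (P / F.L)) (P % F.L) :: l →
      ((P + y.length) % F.L = 0 ∧
        1 ≤ φ + ((P + y.length) / F.L : ℕ) - (P / F.L : ℕ)) ∨
      ∃ φ', Val (P + y.length) φ' ∧
        1 + φ' ≤ φ + ((P + y.length) / F.L : ℕ) - (P / F.L : ℕ)) {n : ℕ} {w : List α}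
    (h : Fac F.Y n w) : ∀ P len φ, Val P φ → w = F.txt s P len → (P + len) % F.L = 0 →
      (n : ℤ) ≤ φ + ((P + len) / F.L : ℕ) - (P / F.L : ℕ) := by
  have hoL := F.hoL
  have ho := F.ho
  induction h with
  | nil =>
    intro P len φ hval hw hm
    have := congrArg List.length hw
    rw [txt_length] at this
    simp only [List.length_nil] at this
    subst this
    have := hv P φ hval
    rw [add_zero] at hm
    omega
  | @cons y w n hy h ih =>
    intro P len φ hval hw hm
    obtain ⟨h1, h2, h3⟩ := F.txt_split s P len y w hw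
    have hval' := hv P φ hval
    obtain ⟨l, hl⟩ : ∃ l, y = F.lt (s (P / F.L)) (P % F.L) :: l := by
      cases hlen : y.length with
      | zero => exact absurd (List.length_eq_zero_iff.1 hlen) (F.Y_ne _ hy)
      | succ k =>
        rw [hlen, txt_succ] at h2
        exact ⟨_, h2⟩
    have hPdm := Nat.div_add_mod P F.L
    have hsuf : ∀ (b : C) (u : List α), y = F.p b ++ u → F.lt b F.o = F.lt (s (P / F.L)) (P % F.L) →
        b = s (P / F.L) ∧ u = F.txt s ((P / F.L + 1) * F.L) u.length := by
      intro b u hyu hb
      obtain ⟨hb1, hb2⟩ := F.inj _ _ _ _ hb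
      refine ⟨hb1, ?_⟩
      have e1 : F.p b ++ u = F.txt s P y.length := by rw [← hyu]; exact h2
      obtain ⟨_, _, h5⟩ := F.txt_split s P _ _ _ e1
      have e2 : (F.p b).length = F.L - F.o := F.seg_length _ _ _
      rw [e2] at h5
      have e3 : P + (F.L - F.o) = (P / F.L + 1) * F.L := by
        have : (P / F.L + 1) * F.L = F.L * (P / F.L) + F.L := by ring
        rw [this]
        omega
      rw [e3] at h5
      rw [h5, txt_length]
    cases hy with
    | eta => exact absurd (List.cons.inj hl).1.symm (F.ne _ _)
    | tok d _ =>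
      rw [T_cons] at hl
      have := (F.inj _ _ _ _ (List.cons.inj hl).1).2
      omega
    | base _ hy =>
      rcases hs P φ y l hval hy hl with ⟨h4, h5⟩ | ⟨φ', h4, h5⟩
      · have e1 := Nat.div_add_mod (P + y.length) F.L
        rw [h4, add_zero] at e1
        have e2 := Nat.div_add_mod (P + len) F.L
        rw [hm, add_zero] at e2
        have e5 : (P + y.length) / F.L ≤ (P + len) / F.L := Nat.div_le_div_right (by omega)
        have e3 : len - y.length = ((P + len) / F.L - (P + y.length) / F.L) * F.L := by
          rw [Nat.sub_mul, mul_comm, e2, mul_comm, e1]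
          omega
        have e4 : P + y.length = (P + y.length) / F.L * F.L := by rw [mul_comm]; exact e1.symm
        rw [h3, e3] at h
        rw [e4] at h
        have h6 := F.fac_aligned s _ _ _ h
        rw [← e4] at h6
        generalize (P + y.length) / F.L = A at h5 h6 e5
        generalize (P + len) / F.L = A' at h6 e5 ⊢
        generalize P / F.L = A'' at h5 ⊢
        omega
      · have e1 : P + y.length + (len - y.length) = P + len := by omega
        have h6 := ih (P + y.length) (len - y.length) φ' h4 h3 (by rw [e1]; exact hm)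
        rw [e1] at h6
        generalize (P + y.length) / F.L = A at h5 h6
        generalize (P + len) / F.L = A' at h6 ⊢
        generalize P / F.L = A'' at h5 ⊢
        omega
    | f1 e u =>
      have := (F.inj _ _ _ _ (List.cons.inj hl).1).2
      omega
    | f2 e f u =>
      have := (F.inj _ _ _ _ (List.cons.inj hl).1).2
      omega
    | h0 b u hb hu hne hR =>
      exfalso
      have hl' := hl
      rw [p_cons, List.cons_append] at hl'
      obtain ⟨hb1, hu1⟩ := hsuf b u rfl (List.cons.inj hl').1
      obtain ⟨a, u', rfl⟩ := List.exists_cons_of_ne_nil hne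
      rw [List.length_cons, txt_succ] at hu1
      have ha := (List.cons.inj hu1).1
      rw [Nat.mul_div_cancel _ F.Lpos, Nat.mul_mod_left] at ha
      subst ha
      generalize hw' : F.lt (s (P / F.L + 1)) 0 :: u' = w' at hu
      cases hu with
      | nil => simp at hw'
      | eta => exact absurd (List.cons.inj hw').1 (F.ne _ _)
      | tok d hd =>
        have h9 := hw'
        rw [T_cons] at h9
        have := (F.inj _ _ _ _ (List.cons.inj h9).1).1
        refine hR d ?_ hw'
        rw [← this, hb1]
        exact hc _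
      | base _ hy =>
        obtain ⟨_, _, _, h4, _, h5⟩ := F.hb _ hy
        rw [h5] at hw'
        have := (F.inj _ _ _ _ (List.cons.inj hw').1).2
        omega
      | q b' _ =>
        rw [q_cons] at hw'
        have := (F.inj _ _ _ _ (List.cons.inj hw').1).2
        omega
    | h1 b e u hb he hu =>
      exfalso
      have hl' := hl
      rw [p_cons, List.cons_append] at hl'
      obtain ⟨hb1, hu1⟩ := hsuf b _ rfl (List.cons.inj hl').1
      rw [List.length_cons, txt_succ] at hu1
      have ha := (List.cons.inj hu1).1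
      rw [Nat.mul_div_cancel _ F.Lpos, Nat.mul_mod_left] at ha
      have := (F.inj _ _ _ _ ha).2
      omega

/-- a potential certifies that an infinite sequence is bad -/
theorem bad_of_potential (s : ℕ → C) (h0 : s 0 = F.star) (hc : ∀ i, F.R (s i) (s (i + 1)))
    (Val : ℕ → ℤ → Prop)
    (hv : ∀ P φ, Val P φ → 1 ≤ P % F.L ∧ P % F.L + 1 < F.L)
    (hs : ∀ P φ y l, Val P φ → F.base y → y = F.lt (s (P / F.L)) (P % F.L) :: l →
      ((P + y.length) % F.L = 0 ∧
        1 ≤ φ + ((P + y.length) / F.L : ℕ) - (P / F.L : ℕ)) ∨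
      ∃ φ', Val (P + y.length) φ' ∧
        1 + φ' ≤ φ + ((P + y.length) / F.L : ℕ) - (P / F.L : ℕ))
    (hi : Val F.o (-2)) (m : ℕ) : ¬ F.Good ((List.range m).map fun i => s (i + 1)) := by
  rintro ⟨n, hn, h⟩
  have hoL := F.hoL
  rw [F.txt_good s h0] at h
  have e1 : F.o + ((m + 1) * F.L - F.o) = (m + 1) * F.L := by
    have : (m + 1) * F.L = m * F.L + F.L := by ring
    omega
  have := F.potential s hc Val hv hs h F.o _ (-2) hi rfl (by rw [e1]; simp)
  rw [e1, Nat.mul_div_cancel _ F.Lpos, Nat.div_eq_of_lt (by omega)] at this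
  simp only [List.length_map, List.length_range] at hn
  push_cast at this
  omega

end Frm

end Pool.Agent.Helper948.Conj
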