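import Pool.Agent.Helper948.Conj.Comp

set_option autoImplicit false

/-! The lists are primitive recursive in the input. -/

namespace Pool.Agent.Helper948.Conj

namespace Dat

variable (D : Dat)

open Primrec

theorem Gn_pr : Primrec D.Gn :=
  nat_add.comp (nat_add.comp (nat_add.comp Primrec.id (const D.l)) (const D.B)) (const 1)

theorem Ln_pr : Primrec D.Ln :=
  nat_add.comp (nat_mul.comp (const 9) (nat_add.comp D.Gn_pr (const 1))) (const 2)

theorem Wn_pr : Primrec D.Wn := nat_add.comp D.Gn_pr (const 2)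

theorem tn_pr : Primrec₂ D.tn := by
  refine nat_add.comp (const 1) (nat_mul.comp ?_ (nat_add.comp (D.Gn_pr.comp fst) (const 1)))
  exact (dom_finite sidx).comp snd

theorem code_pr : Primrec₂ D.code := by
  unfold code
  exact nat_add.comp (Primrec.encode.comp (pair fst snd)) (const 1)

theorem sg_pr : Primrec fun p : (D.Cel × ℕ) × ℕ => D.sg p.1.1 p.1.2 p.2 := by
  unfold sg
  refine list_map (list_range.comp (nat_sub.comp snd (snd.comp fst))) ?_
  exact D.code_pr.comp (fst.comp (fst.comp fst)) (nat_add.comp (snd.comp (fst.comp fst)) snd)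

theorem sg_pr' {α : Type} [Primcodable α] {c : α → D.Cel} {i j : α → ℕ} (hc : Primrec c)
    (hi : Primrec i) (hj : Primrec j) : Primrec fun a => D.sg (c a) (i a) (j a) := by
  have h1 : Primrec fun a => ((c a, i a), j a) := pair (pair hc hi) hj
  have h2 := Primrec.comp (f := fun p : (D.Cel × ℕ) × ℕ => D.sg p.1.1 p.1.2 p.2) D.sg_pr h1
  exact h2

theorem wx_pr : Primrec fun p : ((D.Bk × ℕ) × ℕ) × ℕ => D.wx p.1.1.1 p.1.1.2 p.1.2 p.2 := by
  unfold wx
  refine list_map (list_range.comp snd) ?_
  have h1 : Primrec₂ fun (p : ((D.Bk × ℕ) × ℕ) × ℕ) (k : ℕ) => p.1.2 + k :=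
    nat_add.comp (snd.comp (fst.comp fst)) snd
  have h2 : Primrec₂ fun (p : ((D.Bk × ℕ) × ℕ) × ℕ) (_ : ℕ) => p.1.1.2 :=
    snd.comp (fst.comp (fst.comp fst))
  exact D.code_pr.comp (pair (fst.comp (fst.comp (fst.comp fst))) (nat_div.comp h1 h2))
    (nat_mod.comp h1 h2)

theorem wx_pr' {α : Type} [Primcodable α] {X : α → D.Bk} {L P n : α → ℕ} (hX : Primrec X)
    (hL : Primrec L) (hP : Primrec P) (hn : Primrec n) :
    Primrec fun a => D.wx (X a) (L a) (P a) (n a) := by
  have h1 : Primrec fun a => (((X a, L a), P a), n a) := pair (pair (pair hX hL) hP) hn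
  have h2 := Primrec.comp (f := fun p : ((D.Bk × ℕ) × ℕ) × ℕ => D.wx p.1.1.1 p.1.1.2 p.1.2 p.2)
    D.wx_pr h1
  exact h2

theorem cels_pr : Primrec D.cels := by
  unfold cels
  refine list_flatMap (const _) ?_
  refine list_map (list_range.comp (D.Wn_pr.comp fst)) ?_
  exact pair (snd.comp fst) snd

theorem dl_pr : Primrec fun p : (ℕ × D.Bk) × St => D.dl p.1.1 p.1.2 p.2 := by
  unfold dl
  refine Primrec.ite ?_ ?_ ?_
  · exact (Primrec.eq.comp (snd.comp fst) (const _)).and (Primrec.eq.comp snd (const _))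
  · have hN : Primrec fun p : (ℕ × D.Bk) × St => p.1.1 := fst.comp fst
    refine list_cons.comp (const _) (list_cons.comp (const _) (list_cons.comp ?_
      (list_cons.comp (const _) (list_cons.comp ?_ (const _)))))
    · exact pair (const _) (pair (nat_add.comp hN (const 1)) (const _))
    · exact pair hN (const _)
  · have : Primrec fun p : D.Bk × St => (D.mach 0).del p.1 p.2 := dom_finite _
    exact this.comp (pair (snd.comp fst) snd)

theorem Rc_pr : PrimrecPred fun p : (ℕ × D.Cel) × D.Cel => D.Rc p.1.1 p.1.2 p.2 := by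
  unfold Rc
  have hN : Primrec fun p : (ℕ × D.Cel) × D.Cel => p.1.1 := fst.comp fst
  have hc : Primrec fun p : (ℕ × D.Cel) × D.Cel => p.1.2 := snd.comp fst
  have hd : Primrec fun p : (ℕ × D.Cel) × D.Cel => p.2 := snd
  have hr : Primrec fun p : D.Bk × D.Bk => D.rhb p.1 p.2 := dom_finite _
  have hr2 := hr.comp (pair (fst.comp hc) (fst.comp hd))
  refine (nat_lt.comp (snd.comp hd) (D.Wn_pr.comp hN)).and (PrimrecPred.or ?_ ?_)
  · exact (Primrec.eq.comp (fst.comp hc) (fst.comp hd)).and
      (Primrec.eq.comp (snd.comp hd) (nat_add.comp (snd.comp hc) (const 1)))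
  · refine (Primrec.eq.comp (nat_add.comp (snd.comp hc) (const 1)) (D.Wn_pr.comp hN)).and
      ((Primrec.eq.comp (snd.comp hd) (const 0)).and ?_)
    exact Primrec.eq.comp hr2 (const true)

theorem base1_pr : Primrec D.base1 := by
  unfold base1
  refine list_flatMap D.cels_pr ?_
  refine list_flatMap (D.cels_pr.comp fst) ?_
  refine list_flatMap (const _) ?_
  have hN : Primrec fun p : ((ℕ × D.Cel) × D.Cel) × St => p.1.1.1 := fst.comp (fst.comp fst)
  have hc : Primrec fun p : ((ℕ × D.Cel) × D.Cel) × St => p.1.1.2 := snd.comp (fst.comp fst)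
  have hd : Primrec fun p : ((ℕ × D.Cel) × D.Cel) × St => p.1.2 := snd.comp fst
  have hq : Primrec fun p : ((ℕ × D.Cel) × D.Cel) × St => p.2 := snd
  have ht := D.tn_pr.comp hN hq
  refine Primrec.ite (Primrec.eq.comp (snd.comp hc) (const 0)) (const _) ?_
  refine list_cons.comp ?_ (const _)
  exact list_append.comp (D.sg_pr' hc ht (D.Ln_pr.comp hN)) (D.sg_pr' hd (const 0) ht)

theorem base2_pr : Primrec D.base2 := by
  unfold base2
  refine list_flatMap (const _) ?_
  refine list_flatMap (const _) ?_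
  refine list_flatMap ?_ ?_
  · exact D.dl_pr.comp (pair (pair (fst.comp fst) (snd.comp fst)) snd)
  · refine list_map (list_range.comp (fst.comp snd)) ?_
    have hN : Primrec fun p : (((ℕ × D.Bk) × St) × (ℕ × ℕ × St)) × ℕ => p.1.1.1.1 :=
      fst.comp (fst.comp (fst.comp fst))
    have hX : Primrec fun p : (((ℕ × D.Bk) × St) × (ℕ × ℕ × St)) × ℕ => p.1.1.1.2 :=
      snd.comp (fst.comp (fst.comp fst))
    have hq : Primrec fun p : (((ℕ × D.Bk) × St) × (ℕ × ℕ × St)) × ℕ => p.1.1.2 :=
      snd.comp (fst.comp fst)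
    refine list_cons.comp ?_ (const _)
    exact D.code_pr.comp (pair hX (const 0)) (nat_add.comp (D.tn_pr.comp hN hq) snd)

theorem base3_pr : Primrec D.base3 := by
  unfold base3
  refine list_flatMap (const _) ?_
  refine list_flatMap (const _) ?_
  refine list_map ?_ ?_
  · exact D.dl_pr.comp (pair (pair (fst.comp fst) (snd.comp fst)) snd)
  · have hN : Primrec fun p : ((ℕ × D.Bk) × St) × (ℕ × ℕ × St) => p.1.1.1 :=
      fst.comp (fst.comp fst)
    have hX : Primrec fun p : ((ℕ × D.Bk) × St) × (ℕ × ℕ × St) => p.1.1.2 :=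
      snd.comp (fst.comp fst)
    have hq : Primrec fun p : ((ℕ × D.Bk) × St) × (ℕ × ℕ × St) => p.1.2 := snd.comp fst
    have hg : Primrec fun p : ((ℕ × D.Bk) × St) × (ℕ × ℕ × St) => p.2.1 := fst.comp snd
    have hl : Primrec fun p : ((ℕ × D.Bk) × St) × (ℕ × ℕ × St) => p.2.2.1 :=
      fst.comp (snd.comp snd)
    have hq' : Primrec fun p : ((ℕ × D.Bk) × St) × (ℕ × ℕ × St) => p.2.2.2 :=
      snd.comp (snd.comp snd)
    have hL := D.Ln_pr.comp hN
    have ht := nat_add.comp (D.tn_pr.comp hN hq) hg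
    refine D.wx_pr' hX hL ht ?_
    exact nat_sub.comp (nat_add.comp (nat_mul.comp (nat_add.comp hl (const 1)) hL)
      (D.tn_pr.comp hN hq')) ht

theorem base4_pr : Primrec D.base4 := by
  unfold base4
  refine list_flatMap (const _) ?_
  refine list_flatMap (const _) ?_
  have hN : Primrec fun p : (ℕ × D.Bk) × St => p.1.1 := fst.comp fst
  have hX : Primrec fun p : (ℕ × D.Bk) × St => p.1.2 := snd.comp fst
  have hq : Primrec fun p : (ℕ × D.Bk) × St => p.2 := snd
  have hex : Primrec fun p : D.Bk × St => D.exb p.1 p.2 := dom_finite _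
  have hL := D.Ln_pr.comp hN
  have ht := D.tn_pr.comp hN hq
  refine Primrec.ite (Primrec.eq.comp (hex.comp (pair hX hq)) (const true)) ?_ (const _)
  refine list_cons.comp ?_ (const _)
  exact D.wx_pr' hX hL ht (nat_sub.comp (nat_mul.comp (const 2) hL) ht)

theorem baseL_pr : Primrec D.baseL :=
  list_append.comp (list_append.comp (list_append.comp D.base1_pr D.base2_pr) D.base3_pr)
    D.base4_pr

theorem To_pr : Primrec₂ D.To := D.sg_pr' snd (const 0) (D.Ln_pr.comp fst)

theorem po_pr : Primrec₂ D.po := D.sg_pr' snd (const 1) (D.Ln_pr.comp fst)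

theorem qo_pr : Primrec₂ D.qo :=
  D.sg_pr' snd (const 1) (nat_sub.comp (D.Ln_pr.comp fst) (const 1))

theorem la_pr : Primrec₂ D.la :=
  D.code_pr.comp snd (nat_sub.comp (D.Ln_pr.comp fst) (const 1))

theorem UL0_pr : Primrec D.UL0 :=
  list_cons.comp (const _) (list_append.comp D.baseL_pr (list_map D.cels_pr D.qo_pr))

theorem UL_pr : Primrec D.UL :=
  list_cons.comp (const _) (list_append.comp (list_map D.cels_pr D.To_pr) D.UL0_pr)

theorem y1_pr : Primrec D.y1 := by
  unfold y1
  refine list_flatMap D.cels_pr ?_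
  refine list_map (D.UL_pr.comp fst) ?_
  exact list_cons.comp (D.la_pr.comp (fst.comp fst) (snd.comp fst)) snd

theorem y2_pr : Primrec D.y2 := by
  unfold y2
  refine list_flatMap D.cels_pr ?_
  refine list_flatMap (D.cels_pr.comp fst) ?_
  refine list_map (D.UL_pr.comp (fst.comp fst)) ?_
  exact list_cons.comp (D.la_pr.comp (fst.comp (fst.comp fst)) (snd.comp (fst.comp fst)))
    (list_cons.comp (D.la_pr.comp (fst.comp (fst.comp fst)) (snd.comp fst)) snd)

theorem y3_pr : Primrec D.y3 := by
  unfold y3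
  refine list_flatMap D.cels_pr ?_
  refine list_map (D.UL0_pr.comp fst) ?_
  exact list_append.comp (D.po_pr.comp (fst.comp fst) (snd.comp fst)) snd

theorem y4_pr : Primrec D.y4 := by
  unfold y4
  refine list_flatMap D.cels_pr ?_
  refine list_flatMap (D.cels_pr.comp fst) ?_
  refine Primrec.ite D.Rc_pr (const _) ?_
  refine list_cons.comp ?_ (const _)
  exact list_append.comp (D.po_pr.comp (fst.comp fst) (snd.comp fst))
    (D.To_pr.comp (fst.comp fst) snd)

theorem y5_pr : Primrec D.y5 := by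
  unfold y5
  refine list_flatMap D.cels_pr ?_
  refine list_flatMap (D.cels_pr.comp fst) ?_
  refine list_map (D.UL_pr.comp (fst.comp fst)) ?_
  exact list_append.comp (D.po_pr.comp (fst.comp (fst.comp fst)) (snd.comp (fst.comp fst)))
    (list_cons.comp (D.la_pr.comp (fst.comp (fst.comp fst)) (snd.comp fst)) snd)

theorem YL_pr : Primrec D.YL := by
  unfold YL
  refine list_cons.comp (const _) ?_
  refine list_append.comp (list_append.comp (list_append.comp (list_append.comp
    (list_append.comp (list_append.comp (list_map D.cels_pr D.To_pr) D.baseL_pr) D.y1_pr)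
      D.y2_pr) D.y3_pr) D.y4_pr) D.y5_pr

theorem XL_pr : Primrec D.XL := by
  unfold XL
  refine list_cons.comp (list_cons.comp (const 0) ?_) D.YL_pr
  exact D.po_pr.comp Primrec.id (const _)

/-- a bound for the letters -/
def bnd (l : List ℕ) : ℕ := l.foldr (fun a b => a + b + 1) 0

theorem lt_bnd (l : List ℕ) : ∀ a ∈ l, a < bnd l := by
  induction l with
  | nil => simp
  | cons b l ih =>
    intro a ha
    have e : bnd (b :: l) = b + bnd l + 1 := rfl
    rcases List.mem_cons.1 ha with rfl | ha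
    · omega
    · have := ih a ha
      omega

theorem bnd_pr : Primrec bnd := by
  refine (list_foldr (f := fun l : List ℕ => l) (g := fun _ => 0)
    (h := fun _ (p : ℕ × ℕ) => p.1 + p.2 + 1) Primrec.id (Primrec.const 0) ?_)
  exact (nat_add.comp (nat_add.comp (fst.comp snd) (snd.comp snd)) (const 1)).to₂

/-- the size of the alphabet -/
def kn (N : ℕ) : ℕ := bnd (D.XL N).flatten

theorem kn_pr : Primrec D.kn := bnd_pr.comp (list_flatten.comp D.XL_pr)

end Dat

end Pool.Agent.Helper948.Conj
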